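import Mathlib

set_option autoImplicit false

open MeasureTheory Complex Set

namespace Pool.Agent.K3h94.Berg

/-- the closed standard triangle -/
def Tri : Set ℂ := {w | 0 ≤ w.re ∧ 0 ≤ w.im ∧ w.re + w.im ≤ 1}

/-- the closed standard triangle in `ℝ × ℝ` -/
def Tri2 : Set (ℝ × ℝ) := {p | 0 ≤ p.1 ∧ 0 ≤ p.2 ∧ p.1 + p.2 ≤ 1}

theorem isClosed_Tri2 : IsClosed Tri2 :=
  (isClosed_le continuous_const continuous_fst).inter
    ((isClosed_le continuous_const continuous_snd).inter
      (isClosed_le (continuous_fst.add continuous_snd) continuous_const))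

theorem isClosed_Tri : IsClosed Tri :=
  (isClosed_le continuous_const continuous_re).inter
    ((isClosed_le continuous_const continuous_im).inter
      (isClosed_le (continuous_re.add continuous_im) continuous_const))

theorem isCompact_Tri2 : IsCompact Tri2 := by
  refine (isCompact_Icc (a := ((0 : ℝ), (0 : ℝ))) (b := (1, 1))).of_isClosed_subset
    isClosed_Tri2 ?_
  rintro ⟨a, b⟩ ⟨h1, h2, h3⟩
  simp only at h1 h2 h3
  exact ⟨⟨h1, h2⟩, ⟨by simp only; linarith, by simp only; linarith⟩⟩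

theorem tri2_fubini (G : ℝ × ℝ → ℂ) (hG : Continuous G) :
    ∫ p in Tri2, G p = ∫ a in (0 : ℝ)..1, ∫ b in (0 : ℝ)..(1 - a), G (a, b) := by
  have hint : Integrable (Tri2.indicator G) (volume.prod volume) := by
    rw [← Measure.volume_eq_prod]
    exact (hG.continuousOn.integrableOn_compact isCompact_Tri2).integrable_indicator
      isClosed_Tri2.measurableSet
  rw [← integral_indicator isClosed_Tri2.measurableSet, Measure.volume_eq_prod,
    integral_prod _ hint, intervalIntegral.integral_of_le zero_le_one, ← integral_Icc_eq_integral_Ioc,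
    ← integral_indicator measurableSet_Icc]
  congr 1
  funext a
  by_cases ha : a ∈ Icc (0 : ℝ) 1
  · rw [indicator_of_mem ha, intervalIntegral.integral_of_le (by linarith [ha.2]),
      ← integral_Icc_eq_integral_Ioc, ← integral_indicator measurableSet_Icc]
    congr 1
    funext b
    by_cases hb : b ∈ Icc (0 : ℝ) (1 - a)
    · rw [indicator_of_mem hb, indicator_of_mem]
      exact ⟨ha.1, hb.1, by simp only; linarith [hb.2]⟩
    · rw [indicator_of_notMem hb, indicator_of_notMem]
      rintro ⟨_, h2, h3⟩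
      exact hb ⟨h2, by simp only at h3; linarith⟩
  · rw [indicator_of_notMem ha]
    have : (fun b => Tri2.indicator G (a, b)) = fun _ => 0 := by
      funext b
      rw [indicator_of_notMem]
      rintro ⟨h1, h2, h3⟩
      simp only at h1 h2 h3
      exact ha ⟨h1, by linarith⟩
    rw [this, integral_zero]

theorem tri2_fubini' (G : ℝ × ℝ → ℂ) (hG : Continuous G) :
    ∫ p in Tri2, G p = ∫ b in (0 : ℝ)..1, ∫ a in (0 : ℝ)..(1 - b), G (a, b) := by
  have h := tri2_fubini (fun p => G p.swap) (hG.comp continuous_swap)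
  simp only [Prod.swap_prod_mk] at h
  rw [← h]
  have hmp : MeasurePreserving (Prod.swap : ℝ × ℝ → ℝ × ℝ) volume volume :=
    Measure.measurePreserving_swap
  have h2 := hmp.setIntegral_preimage_emb (MeasurableEquiv.prodComm.measurableEmbedding)
    G Tri2
  rw [← h2]
  congr 2
  ext ⟨a, b⟩
  simp only [Tri2, mem_preimage, Set.mem_ofPred_eq, Prod.swap_prod_mk]
  constructor
  · rintro ⟨h1, h2, h3⟩
    exact ⟨h2, h1, by linarith⟩
  · rintro ⟨h1, h2, h3⟩
    exact ⟨h2, h1, by linarith⟩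

theorem tri_eq (g : ℂ → ℂ) : ∫ w in Tri, g w = ∫ p in Tri2, g (p.1 + p.2 * I) := by
  have hmp := Complex.volume_preserving_equiv_real_prod.symm
  have h2 := hmp.setIntegral_preimage_emb
    (Complex.measurableEquivRealProd.symm.measurableEmbedding) g Tri
  rw [← h2]
  have hset : (Complex.measurableEquivRealProd.symm ⁻¹' Tri) = Tri2 := by
    ext ⟨a, b⟩
    simp [Tri, Tri2, Complex.measurableEquivRealProd_symm_apply]
  rw [hset]
  refine integral_congr_ae (Filter.Eventually.of_forall fun p => ?_)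
  simp only [Complex.measurableEquivRealProd_symm_apply]
  congr 1
  apply Complex.ext <;> simp

/-- the affine parametrization of a triangle -/
noncomputable def aff (A U W : ℂ) (w : ℂ) : ℂ := A + w.re * U + w.im * W

theorem continuous_aff (A U W : ℂ) : Continuous (aff A U W) := by
  unfold aff
  fun_prop

/-- the edge integral -/
noncomputable def edge (m n : ℕ) (P Q : ℂ) : ℂ :=
  ∫ t in (0 : ℝ)..1, (P + t * (Q - P)) ^ m * (starRingEnd ℂ) (P + t * (Q - P)) ^ (n + 1) * (Q - P)

theorem edge_symm (m n : ℕ) (P Q : ℂ) : edge m n P Q = -edge m n Q P := by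
  unfold edge
  have h := intervalIntegral.integral_comp_sub_left (a := (0 : ℝ)) (b := 1)
    (fun t : ℝ => (Q + t * (P - Q)) ^ m * (starRingEnd ℂ) (Q + t * (P - Q)) ^ (n + 1) *
      (P - Q)) 1
  rw [sub_self, sub_zero] at h
  rw [← h, ← intervalIntegral.integral_neg]
  congr 1
  funext t
  have e : Q + ((1 - t : ℝ) : ℂ) * (P - Q) = P + t * (Q - P) := by push_cast; ring
  rw [e]
  ring

theorem hasDerivAt_conj {f : ℝ → ℂ} {f' : ℂ} {x : ℝ} (h : HasDerivAt f f' x) :
    HasDerivAt (fun x => (starRingEnd ℂ) (f x)) ((starRingEnd ℂ) f') x :=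
  Complex.conjCLE.toContinuousLinearMap.hasFDerivAt.comp_hasDerivAt x h

theorem green_abs (F : ℝ → ℝ → ℂ) (Fa Fb : ℝ × ℝ → ℂ) (hFac : Continuous Fa)
    (hFbc : Continuous Fb) (hFc : Continuous (fun p : ℝ × ℝ => F p.1 p.2))
    (hda : ∀ a b : ℝ, HasDerivAt (fun a : ℝ => F a b) (Fa (a, b)) a)
    (hdb : ∀ a b : ℝ, HasDerivAt (fun b : ℝ => F a b) (Fb (a, b)) b) (U W : ℂ) :
    ∫ p in Tri2, (W * Fa p - U * Fb p) =
      (W - U) * (∫ t in (0 : ℝ)..1, F (1 - t) t) + U * (∫ t in (0 : ℝ)..1, F t 0) -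
        W * ∫ t in (0 : ℝ)..1, F 0 t := by
  have hia : ∫ p in Tri2, Fa p = ∫ b in (0 : ℝ)..1, (F (1 - b) b - F 0 b) := by
    rw [tri2_fubini' Fa hFac]
    congr 1
    funext b
    exact intervalIntegral.integral_eq_sub_of_hasDerivAt (fun a _ => hda a b)
      ((hFac.comp (by fun_prop : Continuous fun a : ℝ => (a, b))).intervalIntegrable _ _)
  have hib : ∫ p in Tri2, Fb p = ∫ a in (0 : ℝ)..1, (F a (1 - a) - F a 0) := by
    rw [tri2_fubini Fb hFbc]
    congr 1
    funext a
    exact intervalIntegral.integral_eq_sub_of_hasDerivAt (fun b _ => hdb a b)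
      ((hFbc.comp (by fun_prop : Continuous fun b : ℝ => (a, b))).intervalIntegrable _ _)
  have c1 : Continuous fun t : ℝ => F (1 - t) t :=
    hFc.comp (by fun_prop : Continuous fun t : ℝ => (1 - t, t))
  have c2 : Continuous fun t : ℝ => F 0 t :=
    hFc.comp (by fun_prop : Continuous fun t : ℝ => ((0 : ℝ), t))
  have c3 : Continuous fun t : ℝ => F t (1 - t) :=
    hFc.comp (by fun_prop : Continuous fun t : ℝ => (t, 1 - t))
  have c4 : Continuous fun t : ℝ => F t 0 :=
    hFc.comp (by fun_prop : Continuous fun t : ℝ => (t, (0 : ℝ)))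
  rw [intervalIntegral.integral_sub (c1.intervalIntegrable _ _) (c2.intervalIntegrable _ _)] at hia
  rw [intervalIntegral.integral_sub (c3.intervalIntegrable _ _) (c4.intervalIntegrable _ _)] at hib
  have hsw : ∫ a in (0 : ℝ)..1, F a (1 - a) = ∫ t in (0 : ℝ)..1, F (1 - t) t := by
    have h := intervalIntegral.integral_comp_sub_left (a := (0 : ℝ)) (b := 1)
      (fun t : ℝ => F t (1 - t)) 1
    rw [sub_self, sub_zero] at h
    rw [← h]
    congr 1
    funext t
    rw [sub_sub_cancel]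
  rw [hsw] at hib
  rw [integral_sub, integral_const_mul, integral_const_mul, hia, hib]
  · ring
  · exact (continuous_const.mul hFac).continuousOn.integrableOn_compact isCompact_Tri2
  · exact (continuous_const.mul hFbc).continuousOn.integrableOn_compact isCompact_Tri2

theorem pow_deriv (m n : ℕ) {f : ℝ → ℂ} {f' : ℂ} {x : ℝ} (h : HasDerivAt f f' x) :
    HasDerivAt (fun x => f x ^ m * (starRingEnd ℂ) (f x) ^ (n + 1))
      (m * f x ^ (m - 1) * f' * (starRingEnd ℂ) (f x) ^ (n + 1) +
        f x ^ m * ((n + 1 : ℕ) * (starRingEnd ℂ) (f x) ^ n * (starRingEnd ℂ) f')) x := by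
  have h4 := (h.fun_pow m).fun_mul ((hasDerivAt_conj h).fun_pow (n + 1))
  simp only [Nat.add_sub_cancel] at h4
  exact h4

theorem green_aux (A U W : ℂ) (m n : ℕ) :
    (n + 1) * (W * (starRingEnd ℂ) U - U * (starRingEnd ℂ) W) *
      (∫ w in Tri, aff A U W w ^ m * (starRingEnd ℂ) (aff A U W w) ^ n) =
    edge m n (A + U) (A + W) + edge m n A (A + U) - edge m n A (A + W) := by
  have key := green_abs
    (fun a b => (A + a * U + b * W) ^ m * (starRingEnd ℂ) (A + a * U + b * W) ^ (n + 1))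
    (fun p => m * (A + p.1 * U + p.2 * W) ^ (m - 1) * U *
      (starRingEnd ℂ) (A + p.1 * U + p.2 * W) ^ (n + 1) +
    (A + p.1 * U + p.2 * W) ^ m *
      ((n + 1 : ℕ) * (starRingEnd ℂ) (A + p.1 * U + p.2 * W) ^ n * (starRingEnd ℂ) U))
    (fun p => m * (A + p.1 * U + p.2 * W) ^ (m - 1) * W *
      (starRingEnd ℂ) (A + p.1 * U + p.2 * W) ^ (n + 1) +
    (A + p.1 * U + p.2 * W) ^ m *
      ((n + 1 : ℕ) * (starRingEnd ℂ) (A + p.1 * U + p.2 * W) ^ n * (starRingEnd ℂ) W))
    (by fun_prop) (by fun_prop) (by fun_prop)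
    (by
      intro a b
      have h1 : HasDerivAt (fun a : ℝ => A + (a : ℂ) * U + b * W) U a := by
        have h3 : HasDerivAt (fun x : ℝ => (x : ℂ)) 1 a := (hasDerivAt_id a).ofReal_comp
        simpa using ((h3.mul_const U).const_add A).add_const (b * W)
      exact pow_deriv m n h1)
    (by
      intro a b
      have h1 : HasDerivAt (fun b : ℝ => A + (a : ℂ) * U + b * W) W b := by
        have h3 : HasDerivAt (fun x : ℝ => (x : ℂ)) 1 b := (hasDerivAt_id b).ofReal_comp
        simpa using ((h3.mul_const W).const_add (A + a * U))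
      exact pow_deriv m n h1) U W
  have hI : (n + 1) * (W * (starRingEnd ℂ) U - U * (starRingEnd ℂ) W) *
        (∫ w in Tri, aff A U W w ^ m * (starRingEnd ℂ) (aff A U W w) ^ n) =
      ∫ p in Tri2, (W * (m * (A + p.1 * U + p.2 * W) ^ (m - 1) * U *
      (starRingEnd ℂ) (A + p.1 * U + p.2 * W) ^ (n + 1) +
    (A + p.1 * U + p.2 * W) ^ m *
      ((n + 1 : ℕ) * (starRingEnd ℂ) (A + p.1 * U + p.2 * W) ^ n * (starRingEnd ℂ) U)) -
      U * (m * (A + p.1 * U + p.2 * W) ^ (m - 1) * W *
      (starRingEnd ℂ) (A + p.1 * U + p.2 * W) ^ (n + 1) +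
    (A + p.1 * U + p.2 * W) ^ m *
      ((n + 1 : ℕ) * (starRingEnd ℂ) (A + p.1 * U + p.2 * W) ^ n * (starRingEnd ℂ) W))) := by
    rw [tri_eq, ← integral_const_mul]
    refine integral_congr_ae (Filter.Eventually.of_forall fun p => ?_)
    have e : aff A U W (p.1 + p.2 * I) = A + p.1 * U + p.2 * W := by
      simp [aff]
    simp only
    rw [e]
    push_cast
    ring
  rw [hI, key]
  have h1 : edge m n (A + U) (A + W) = (W - U) * ∫ t in (0 : ℝ)..1,
      (A + ((1 - t : ℝ) : ℂ) * U + t * W) ^ m *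
        (starRingEnd ℂ) (A + ((1 - t : ℝ) : ℂ) * U + t * W) ^ (n + 1) := by
    unfold edge
    rw [← intervalIntegral.integral_const_mul]
    congr 1
    funext t
    have e : A + U + (t : ℂ) * (A + W - (A + U)) = A + ((1 - t : ℝ) : ℂ) * U + t * W := by
      push_cast; ring
    rw [e]
    ring
  have h2 : edge m n A (A + U) = U * ∫ t in (0 : ℝ)..1,
      (A + (t : ℂ) * U + ((0 : ℝ) : ℂ) * W) ^ m *
        (starRingEnd ℂ) (A + (t : ℂ) * U + ((0 : ℝ) : ℂ) * W) ^ (n + 1) := by
    unfold edge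
    rw [← intervalIntegral.integral_const_mul]
    congr 1
    funext t
    have e : A + (t : ℂ) * (A + U - A) = A + (t : ℂ) * U + ((0 : ℝ) : ℂ) * W := by
      push_cast; ring
    rw [e]
    ring
  have h3 : edge m n A (A + W) = W * ∫ t in (0 : ℝ)..1,
      (A + ((0 : ℝ) : ℂ) * U + (t : ℂ) * W) ^ m *
        (starRingEnd ℂ) (A + ((0 : ℝ) : ℂ) * U + (t : ℂ) * W) ^ (n + 1) := by
    unfold edge
    rw [← intervalIntegral.integral_const_mul]
    congr 1
    funext t
    have e : A + (t : ℂ) * (A + W - A) = A + ((0 : ℝ) : ℂ) * U + (t : ℂ) * W := by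
      push_cast; ring
    rw [e]
    ring
  rw [h1, h2, h3]

end Pool.Agent.K3h94.Berg
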