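import Pool.Agent.K3h94.Berg.Step

set_option autoImplicit false

open Polynomial

namespace Pool.Agent.K3h94.Berg

theorem Alt.of_expand {q : ℝ[X]} {N k j : ℕ} (hN : 1 ≤ N)
    (h : Alt (fun x => (X ^ k * expand ℝ N q).eval x) j) : Alt (fun x => q.eval x) j := by
  obtain ⟨σ, x, h1, h2, h3⟩ := h
  refine ⟨σ, fun i => x i ^ N, fun i hi => ⟨pow_pos (h1 i hi).1 N,
    pow_lt_one₀ (h1 i hi).1.le (h1 i hi).2 (by omega)⟩, fun i hi =>
    pow_lt_pow_left₀ (h2 i hi) (h1 i hi.le).1.le (by omega), fun i hi => ?_⟩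
  have h4 := h3 i hi
  simp only [eval_mul, eval_pow, eval_X, expand_eval] at h4
  have h5 : 0 < x i ^ k := pow_pos (h1 i hi).1 k
  have h6 : σ * (-1) ^ i * (x i ^ k * q.eval (x i ^ N)) =
    x i ^ k * (σ * (-1) ^ i * q.eval (x i ^ N)) := by ring
  rw [h6] at h4
  exact (mul_pos_iff_of_pos_left h5).1 h4

/-- alternating signs give roots -/
theorem Alt.roots {q : ℝ[X]} {j : ℕ} (h : Alt (fun x => q.eval x) j) :
    ∃ t : ℕ → ℝ, (∀ i < j, 0 < t i ∧ t i < 1 ∧ q.eval (t i) = 0) ∧
      ∀ i, i + 1 < j → t i < t (i + 1) := by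
  obtain ⟨σ, x, h1, h2, h3⟩ := h
  have hivt : ∀ i : ℕ, i < j → ∃ c ∈ Set.Ioo (x i) (x (i + 1)), q.eval c = 0 := by
    intro i hi
    have h4 := h3 i hi.le
    have h5 := h3 (i + 1) (by omega)
    rw [pow_succ] at h5
    have hcont : ContinuousOn (fun y => q.eval y) (Set.Icc (x i) (x (i + 1))) :=
      q.continuous.continuousOn
    simp only at h4 h5
    have hs : q.eval (x i) * q.eval (x (i + 1)) < 0 := by
      by_contra hcon
      push Not at hcon
      have hσ : 0 ≤ (σ * (-1) ^ i) ^ 2 * (q.eval (x i) * q.eval (x (i + 1))) :=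
        mul_nonneg (sq_nonneg _) hcon
      nlinarith [mul_pos h4 h5]
    rcases lt_or_gt_of_ne (show q.eval (x i) ≠ 0 from fun h0 => by rw [h0, zero_mul] at hs; exact lt_irrefl _ hs) with hneg | hpos
    · have hpos' : 0 < q.eval (x (i + 1)) := by
        by_contra hcon
        push Not at hcon
        nlinarith
      obtain ⟨c, hc, hc0⟩ := intermediate_value_Ioo (h2 i hi).le hcont ⟨hneg, hpos'⟩
      exact ⟨c, hc, hc0⟩
    · have hneg' : q.eval (x (i + 1)) < 0 := by
        by_contra hcon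
        push Not at hcon
        nlinarith
      obtain ⟨c, hc, hc0⟩ := intermediate_value_Ioo' (h2 i hi).le hcont ⟨hneg', hpos⟩
      exact ⟨c, hc, hc0⟩
  choose! c hc1 hc2 using hivt
  refine ⟨c, fun i hi => ⟨(h1 i hi.le).1.trans (hc1 i hi).1, (hc1 i hi).2.trans
    (h1 (i + 1) hi).2, hc2 i hi⟩, fun i hi => ?_⟩
  exact (hc1 i (by omega)).2.trans (hc1 (i + 1) hi).1

theorem strictMonoOn_of_lt {t : ℕ → ℝ} {j : ℕ} (h : ∀ i, i + 1 < j → t i < t (i + 1)) :
    ∀ a b, a < b → b < j → t a < t b := by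
  intro a b hab
  induction b, hab using Nat.le_induction with
  | base => exact fun hb => h a hb
  | succ b hb ih => exact fun hb' => (ih (by omega)).trans (h b hb')

theorem card_image_t {t : ℕ → ℝ} {j : ℕ} (h : ∀ i, i + 1 < j → t i < t (i + 1)) :
    ((Finset.range j).image t).card = j := by
  rw [Finset.card_image_of_injOn, Finset.card_range]
  intro a ha b hb hab
  simp only [Finset.coe_range, Set.mem_Iio] at ha hb
  rcases lt_trichotomy a b with h1 | h1 | h1
  · exact absurd hab (strictMonoOn_of_lt h a b h1 hb).ne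
  · exact h1
  · exact absurd hab (strictMonoOn_of_lt h b a h1 ha).ne'

theorem le_natDegree_of_roots {q : ℝ[X]} (hq : q ≠ 0) {t : ℕ → ℝ} {j : ℕ}
    (h1 : ∀ i < j, q.eval (t i) = 0) (h2 : ∀ i, i + 1 < j → t i < t (i + 1)) :
    j ≤ q.natDegree := by
  rw [← card_image_t h2]
  refine (Finset.card_le_card (t := q.roots.toFinset) ?_).trans
    ((Multiset.toFinset_card_le _).trans (card_roots' q))
  intro x hx
  obtain ⟨i, hi, rfl⟩ := Finset.mem_image.1 hx
  rw [Multiset.mem_toFinset, mem_roots hq]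
  exact h1 i (Finset.mem_range.1 hi)

theorem Alt.le_natDegree {q : ℝ[X]} (hq : q ≠ 0) {j : ℕ} (h : Alt (fun x => q.eval x) j) :
    j ≤ q.natDegree := by
  obtain ⟨t, h1, h2⟩ := h.roots
  exact le_natDegree_of_roots hq (fun i hi => (h1 i hi).2.2) h2

theorem eq_prod_of_roots {q : ℝ[X]} {j : ℕ} (hq : q.Monic) (hd : q.natDegree = j) {t : ℕ → ℝ}
    (h1 : ∀ i < j, q.eval (t i) = 0) (h2 : ∀ i, i + 1 < j → t i < t (i + 1)) :
    q = ∏ ν ∈ Finset.range j, (X - C (t ν)) := by
  have hm : (∏ ν ∈ Finset.range j, (X - C (t ν)) : ℝ[X]).Monic :=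
    monic_prod_of_monic _ _ fun i _ => monic_X_sub_C _
  have hdeg : (∏ ν ∈ Finset.range j, (X - C (t ν)) : ℝ[X]).natDegree = j := by
    rw [natDegree_prod_of_monic _ _ fun i _ => monic_X_sub_C _]
    simp
  refine eq_of_degree_sub_lt_of_eval_finset_eq ((Finset.range j).image t) ?_ ?_
  · rw [card_image_t h2]
    refine lt_of_lt_of_le (degree_sub_lt_left ?_ hq.ne_zero ?_) ?_
    · rw [degree_eq_natDegree hq.ne_zero, degree_eq_natDegree hm.ne_zero, hd, hdeg]
    · rw [hq.leadingCoeff, hm.leadingCoeff]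
    · rw [degree_eq_natDegree hq.ne_zero, hd]
  · intro x hx
    obtain ⟨i, hi, rfl⟩ := Finset.mem_image.1 hx
    rw [h1 i (Finset.mem_range.1 hi), eval_prod]
    refine (Finset.prod_eq_zero hi ?_).symm
    simp

/-- no double root -/
theorem no_double {P : ℝ[X]} (hP : P ≠ 0) {j : ℕ} (hd : P.natDegree ≤ j + 1)
    (h : Alt (fun x => P.eval x) j) (x₀ : ℝ) (h0 : P.eval x₀ = 0)
    (h1 : (derivative P).eval x₀ = 0) : False := by
  have h2 : 1 < P.rootMultiplicity x₀ := (one_lt_rootMultiplicity_iff_isRoot hP).2 ⟨h0, h1⟩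
  have h3 : (X - C x₀) ^ 2 ∣ P := (pow_dvd_pow _ h2).trans (pow_rootMultiplicity_dvd P x₀)
  obtain ⟨R, hR⟩ := h3
  have hR0 : R ≠ 0 := by
    rintro rfl
    exact hP (by rw [hR, mul_zero])
  have hdeg : P.natDegree = 2 + R.natDegree := by
    rw [hR, natDegree_mul (pow_ne_zero _ (X_sub_C_ne_zero x₀)) hR0, natDegree_pow,
      natDegree_X_sub_C]
  have hA : Alt (fun x => R.eval x) j := by
    obtain ⟨σ, x, a1, a2, a3⟩ := h
    refine ⟨σ, x, a1, a2, fun i hi => ?_⟩
    have a4 := a3 i hi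
    simp only [hR, eval_mul, eval_pow, eval_sub, eval_X, eval_C] at a4
    have a5 : σ * (-1) ^ i * ((x i - x₀) ^ 2 * R.eval (x i)) =
      (x i - x₀) ^ 2 * (σ * (-1) ^ i * R.eval (x i)) := by ring
    rw [a5] at a4
    have a6 : 0 ≤ (x i - x₀) ^ 2 := sq_nonneg _
    rcases a6.eq_or_lt with a7 | a7
    · rw [← a7, zero_mul] at a4
      exact absurd a4 (lt_irrefl _)
    · exact (mul_pos_iff_of_pos_left a7).1 a4
  have := hA.le_natDegree hR0
  omega

theorem deriv_prod_mul_neg {s : ℕ → ℝ} {j : ℕ} (hs : ∀ i, i + 1 < j + 1 → s i < s (i + 1)) (i : ℕ)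
    (hi : i < j) {Q : ℝ[X]} (hQ : Q = ∏ ν ∈ Finset.range (j + 1), (X - C (s ν))) :
    (derivative Q).eval (s i) * (derivative Q).eval (s (i + 1)) < 0 := by
  have hder : ∀ l ∈ Finset.range (j + 1), (derivative Q).eval (s l) =
      ∏ ν ∈ (Finset.range (j + 1)).erase l, (s l - s ν) := by
    intro l hl
    rw [hQ, derivative_prod_finset, eval_finset_sum, Finset.sum_eq_single l]
    · simp [eval_prod]
    · intro b hb hbl
      rw [eval_mul, eval_prod, Finset.prod_eq_zero (Finset.mem_erase.2 ⟨Ne.symm hbl, hl⟩), zero_mul]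
      simp
    · intro h
      exact absurd hl h
  have hmono := strictMonoOn_of_lt hs
  have hi1 : i ∈ Finset.range (j + 1) := Finset.mem_range.2 (by omega)
  have hi2 : i + 1 ∈ Finset.range (j + 1) := Finset.mem_range.2 (by omega)
  rw [hder i hi1, hder (i + 1) hi2]
  have e1 : ∏ ν ∈ (Finset.range (j + 1)).erase i, (s i - s ν) =
      (s i - s (i + 1)) * ∏ ν ∈ ((Finset.range (j + 1)).erase i).erase (i + 1), (s i - s ν) :=
    (Finset.mul_prod_erase _ _ (Finset.mem_erase.2 ⟨by omega, hi2⟩)).symm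
  have e2 : ∏ ν ∈ (Finset.range (j + 1)).erase (i + 1), (s (i + 1) - s ν) =
      (s (i + 1) - s i) * ∏ ν ∈ ((Finset.range (j + 1)).erase i).erase (i + 1),
        (s (i + 1) - s ν) := by
    rw [Finset.erase_right_comm]
    exact (Finset.mul_prod_erase _ _ (Finset.mem_erase.2 ⟨by omega, hi1⟩)).symm
  rw [e1, e2]
  have e3 : 0 < ∏ ν ∈ ((Finset.range (j + 1)).erase i).erase (i + 1),
      ((s i - s ν) * (s (i + 1) - s ν)) := by
    refine Finset.prod_pos fun ν hν => ?_
    simp only [Finset.mem_erase, Finset.mem_range] at hν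
    obtain ⟨h1, h2, h3⟩ := hν
    rcases lt_or_gt_of_ne h2 with h4 | h4
    · exact mul_pos (sub_pos.2 (hmono ν i h4 (by omega)))
        (sub_pos.2 (hmono ν (i + 1) (by omega) (by omega)))
    · exact mul_pos_of_neg_of_neg (sub_neg.2 (hmono i ν h4 h3))
        (sub_neg.2 (hmono (i + 1) ν (by omega) h3))
  rw [Finset.prod_mul_distrib] at e3
  have e4 : 0 < s (i + 1) - s i := sub_pos.2 (hs i (by omega))
  nlinarith [mul_pos (mul_pos e4 e4) e3]

/-- interlacing -/
theorem interlace {q Q : ℝ[X]} {j : ℕ} (hq : q.Monic) (hqd : q.natDegree = j) (hQ : Q.Monic)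
    (hQd : Q.natDegree = j + 1)
    (hA : ∀ α β : ℝ, C α * q + C β * Q ≠ 0 → Alt (fun x => (C α * q + C β * Q).eval x) j)
    (hAQ : Alt (fun x => Q.eval x) (j + 1)) :
    ∃ t s : ℕ → ℝ, q = ∏ ν ∈ Finset.range j, (X - C (t ν)) ∧
      Q = ∏ ν ∈ Finset.range (j + 1), (X - C (s ν)) ∧ 0 < s 0 ∧ s j < 1 ∧
      ∀ ν, ν < j → s ν < t ν ∧ t ν < s (ν + 1) := by
  obtain ⟨s, hs1, hs2⟩ := hAQ.roots
  have hQs : Q = ∏ ν ∈ Finset.range (j + 1), (X - C (s ν)) :=
    eq_prod_of_roots hQ hQd (fun i hi => (hs1 i hi).2.2) hs2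
  -- a combination is nonzero
  have hne : ∀ α β : ℝ, ¬ (α = 0 ∧ β = 0) → C α * q + C β * Q ≠ 0 := by
    intro α β hab h0
    have h1 : (C α * q + C β * Q).coeff (j + 1) = 0 := by rw [h0, coeff_zero]
    rw [coeff_add, coeff_C_mul, coeff_C_mul, coeff_eq_zero_of_natDegree_lt (by omega), mul_zero,
      zero_add, ← hQd, hQ.coeff_natDegree, mul_one] at h1
    have h2 : (C α * q + C β * Q).coeff j = 0 := by rw [h0, coeff_zero]
    rw [h1, map_zero, zero_mul, add_zero, coeff_C_mul, ← hqd, hq.coeff_natDegree, mul_one] at h2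
    exact hab ⟨h2, h1⟩
  have hdeg : ∀ α β : ℝ, (C α * q + C β * Q).natDegree ≤ j + 1 := by
    intro α β
    refine (natDegree_add_le _ _).trans (max_le ?_ ?_)
    · exact (natDegree_C_mul_le _ _).trans (by omega)
    · exact (natDegree_C_mul_le _ _).trans (by omega)
  -- the Wronskian does not vanish
  have hW : ∀ x : ℝ, q.eval x * (derivative Q).eval x - (derivative q).eval x * Q.eval x ≠ 0 := by
    intro x hx
    obtain ⟨α, β, hab, h0, h1⟩ : ∃ α β : ℝ, ¬ (α = 0 ∧ β = 0) ∧
        (C α * q + C β * Q).eval x = 0 ∧ (derivative (C α * q + C β * Q)).eval x = 0 := by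
      by_cases h : Q.eval x = 0 ∧ q.eval x = 0
      · by_cases h' : (derivative Q).eval x = 0 ∧ (derivative q).eval x = 0
        · exact ⟨1, 0, by simp, by simp [h.2], by simp [h'.2]⟩
        · refine ⟨(derivative Q).eval x, -(derivative q).eval x, fun hh => h' ⟨hh.1, ?_⟩,
            by simp [h.1, h.2], ?_⟩
          · exact neg_eq_zero.1 hh.2
          · simp only [derivative_add, derivative_C_mul, eval_add, eval_mul, eval_C]
            ring
      · refine ⟨Q.eval x, -q.eval x, fun hh => h ⟨hh.1, neg_eq_zero.1 hh.2⟩, ?_, ?_⟩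
        · simp only [eval_add, eval_mul, eval_C]
          ring
        · simp only [derivative_add, derivative_C_mul, eval_add, eval_mul, eval_C]
          linarith
    exact no_double (hne α β hab) (hdeg α β) (hA α β (hne α β hab)) x h0 h1
  -- it has constant sign
  have hWs : ∀ x y : ℝ, 0 < (q.eval x * (derivative Q).eval x - (derivative q).eval x * Q.eval x) *
      (q.eval y * (derivative Q).eval y - (derivative q).eval y * Q.eval y) := by
    intro x y
    set W : ℝ → ℝ := fun x => q.eval x * (derivative Q).eval x - (derivative q).eval x * Q.eval x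
      with hWdef
    have hcont : Continuous W := ((q.continuous.mul (derivative Q).continuous).sub
      ((derivative q).continuous.mul Q.continuous))
    by_contra hcon
    push Not at hcon
    have hx := hW x
    have hy := hW y
    have : ∃ z, W z = 0 := by
      rcases lt_or_gt_of_ne (show W x ≠ 0 from hx) with h1 | h1
      · have h2 : 0 ≤ W y := by
          by_contra h3
          push Not at h3
          exact absurd hcon (not_le.2 (mul_pos_of_neg_of_neg h1 h3))
        exact mem_range_of_exists_le_of_exists_ge hcont ⟨x, h1.le⟩ ⟨y, h2⟩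
      · have h2 : W y ≤ 0 := by
          by_contra h3
          push Not at h3
          exact absurd hcon (not_le.2 (mul_pos h1 h3))
        exact mem_range_of_exists_le_of_exists_ge hcont ⟨y, h2⟩ ⟨x, h1.le⟩
    obtain ⟨z, hz⟩ := this
    exact hW z hz
  -- sign changes of `q` at the roots of `Q`
  have hqs : ∀ i < j, q.eval (s i) * q.eval (s (i + 1)) < 0 := by
    intro i hi
    have h1 := hWs (s i) (s (i + 1))
    rw [(hs1 i (by omega)).2.2, (hs1 (i + 1) (by omega)).2.2, mul_zero, mul_zero, sub_zero,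
      sub_zero] at h1
    have h2 := deriv_prod_mul_neg hs2 i hi hQs
    by_contra hcon
    push Not at hcon
    nlinarith [mul_nonneg hcon (neg_nonneg.2 h2.le)]
  have hivt : ∀ i : ℕ, i < j → ∃ c ∈ Set.Ioo (s i) (s (i + 1)), q.eval c = 0 := by
    intro i hi
    have hs := hqs i hi
    have hcont : ContinuousOn (fun y => q.eval y) (Set.Icc (s i) (s (i + 1))) :=
      q.continuous.continuousOn
    have hlt := hs2 i (by omega)
    rcases lt_or_gt_of_ne (show q.eval (s i) ≠ 0 from fun h0 => by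
      rw [h0, zero_mul] at hs; exact lt_irrefl _ hs) with hneg | hpos
    · have hpos' : 0 < q.eval (s (i + 1)) := by
        by_contra hcon
        push Not at hcon
        nlinarith
      obtain ⟨c, hc, hc0⟩ := intermediate_value_Ioo hlt.le hcont ⟨hneg, hpos'⟩
      exact ⟨c, hc, hc0⟩
    · have hneg' : q.eval (s (i + 1)) < 0 := by
        by_contra hcon
        push Not at hcon
        nlinarith
      obtain ⟨c, hc, hc0⟩ := intermediate_value_Ioo' hlt.le hcont ⟨hneg', hpos⟩
      exact ⟨c, hc, hc0⟩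
  choose! t ht1 ht2 using hivt
  refine ⟨t, s, eq_prod_of_roots hq hqd ht2 fun i hi =>
    (ht1 i (by omega)).2.trans (ht1 (i + 1) hi).1, hQs, (hs1 0 (by omega)).1,
    (hs1 j (by omega)).2.1, fun ν hν => ht1 ν hν⟩

end Pool.Agent.K3h94.Berg
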