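import Pool.Agent.K3h94.Berg.Moment
import Pool.Agent.K3h94.Berg.Interlace

set_option autoImplicit false

open Polynomial MeasureTheory

namespace Pool.Agent.K3h94.Berg

theorem J_eq_sum (ω : ℂ) (f : ℝ[X]) (m M : ℕ) (hM : f.natDegree < M) :
    J ω f m = ∑ i ∈ Finset.range M, (f.coeff i : ℂ) * J ω (X ^ i) m := by
  unfold J
  have h1 : ∀ x : ℝ, ((f.eval x : ℝ) : ℂ) * (1 + ω * (1 - (x : ℂ))) ^ m =
      ∑ i ∈ Finset.range M, (f.coeff i : ℂ) *
        ((((X ^ i : ℝ[X]).eval x : ℝ) : ℂ) * (1 + ω * (1 - (x : ℂ))) ^ m) := by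
    intro x
    rw [eval_eq_sum_range' hM]
    push_cast
    rw [Finset.sum_mul]
    refine Finset.sum_congr rfl fun i _ => ?_
    simp only [eval_pow, eval_X]
    push_cast
    ring
  simp_rw [h1]
  rw [intervalIntegral.integral_finsetSum]
  · refine Finset.sum_congr rfl fun i _ => ?_
    rw [intervalIntegral.integral_const_mul]
  · intro i _
    apply Continuous.intervalIntegrable
    have : Continuous fun x : ℝ => (((X ^ i : ℝ[X]).eval x : ℝ) : ℂ) :=
      Complex.continuous_ofReal.comp (Polynomial.continuous _)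
    exact continuous_const.mul (this.mul (by fun_prop))

theorem im_J_eq_sum (ω : ℂ) (f : ℝ[X]) (m M : ℕ) (hM : f.natDegree < M) :
    (J ω f m).im = ∑ i ∈ Finset.range M, f.coeff i * (J ω (X ^ i) m).im := by
  rw [J_eq_sum ω f m M hM, Complex.im_sum]
  refine Finset.sum_congr rfl fun i _ => ?_
  rw [Complex.im_ofReal_mul]

theorem im_J_comb (ω : ℂ) (f g : ℝ[X]) (α β : ℝ) (m : ℕ) :
    (J ω (C α * f + C β * g) m).im = α * (J ω f m).im + β * (J ω g m).im := by
  set M := max (C α * f + C β * g).natDegree (max f.natDegree g.natDegree) + 1 with hM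
  rw [im_J_eq_sum ω _ m M (by omega), im_J_eq_sum ω f m M (by omega),
    im_J_eq_sum ω g m M (by omega), Finset.mul_sum, Finset.mul_sum, ← Finset.sum_add_distrib]
  refine Finset.sum_congr rfl fun i _ => ?_
  rw [coeff_add, coeff_C_mul, coeff_C_mul]
  ring

theorem integrableOn_poly (N : ℕ) (hN : 1 ≤ N) (f : ℂ → ℂ) (hf : Continuous f) :
    IntegrableOn f (interior (convexHull ℝ {w : ℂ | w ^ N = 1})) := by
  have h1 : interior (convexHull ℝ {w : ℂ | w ^ N = 1}) ⊆ Metric.closedBall 0 1 := by
    refine interior_subset.trans (convexHull_min ?_ (convex_closedBall 0 1))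
    intro w hw
    simp only [Set.mem_ofPred_eq] at hw
    rw [mem_closedBall_zero_iff]
    have h2 : ‖w‖ ^ N = 1 := by rw [← norm_pow, hw, norm_one]
    exact ((pow_eq_one_iff_of_nonneg (norm_nonneg w) (by omega)).1 h2).le
  exact (hf.continuousOn.integrableOn_compact (isCompact_closedBall 0 1)).mono_set h1

/-- the hypotheses on the `N`-gon -/
structure Good (N : ℕ) (ω : ℂ) : Prop where
  pos : 1 ≤ N
  mom : ∀ m n : ℕ, ∫ z in interior (convexHull ℝ {w : ℂ | w ^ N = 1}),
    z ^ m * (starRingEnd ℂ) z ^ n =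
      if m % N = n % N then (N : ℂ) / (n + 1) * ((J ω (X ^ m) (n + 1)).im : ℂ) else 0
  alt : ∀ k < N, ∀ (j : ℕ) (f : ℝ[X]), f ≠ 0 →
    (∀ b < j, (J ω f (k + 1 + N * b)).im = 0) → Alt (fun x => f.eval x) j

/-- the part of `p` with exponents congruent to `c` -/
noncomputable def part (ρ : ℂ →+ ℝ) (p : ℂ[X]) (N j c : ℕ) : ℝ[X] :=
  ∑ a ∈ Finset.range (j + 1), C (ρ (p.coeff (c + N * a))) * X ^ a

theorem part_coeff (ρ : ℂ →+ ℝ) (p : ℂ[X]) (N j c a : ℕ) :
    (part ρ p N j c).coeff a = if a < j + 1 then ρ (p.coeff (c + N * a)) else 0 := by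
  unfold part
  rw [finsetSum_coeff]
  simp only [coeff_C_mul, coeff_X_pow, mul_ite, mul_one, mul_zero]
  rw [Finset.sum_ite_eq]
  simp only [Finset.mem_range]

theorem part_natDegree (ρ : ℂ →+ ℝ) (p : ℂ[X]) (N j c : ℕ) :
    (part ρ p N j c).natDegree ≤ j := by
  rw [natDegree_le_iff_coeff_eq_zero]
  intro a ha
  rw [part_coeff, if_neg (by omega)]

theorem full_coeff (ρ : ℂ →+ ℝ) (p : ℂ[X]) (N j c m : ℕ) (hN : 1 ≤ N) (hc : c < N)
    (hp : p.natDegree < N * (j + 1)) :
    (X ^ c * expand ℝ N (part ρ p N j c)).coeff m = if m % N = c then ρ (p.coeff m) else 0 := by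
  rw [coeff_X_pow_mul']
  by_cases hcm : c ≤ m
  · rw [if_pos hcm, coeff_expand (by omega)]
    by_cases hd : N ∣ m - c
    · rw [if_pos hd, part_coeff]
      obtain ⟨a, ha⟩ := hd
      have hm : m = c + N * a := by omega
      have h1 : (m - c) / N = a := by rw [ha]; exact Nat.mul_div_cancel_left a (by omega)
      have h2 : m % N = c := by rw [hm, Nat.add_mul_mod_self_left]; exact Nat.mod_eq_of_lt hc
      rw [h1, if_pos h2, ← hm]
      split_ifs with h3
      · rfl
      · rw [coeff_eq_zero_of_natDegree_lt, map_zero]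
        refine lt_of_lt_of_le hp ?_
        rw [hm]
        have : N * (j + 1) ≤ N * a := Nat.mul_le_mul_left N (by omega)
        omega
    · rw [if_neg hd, if_neg]
      intro h2
      apply hd
      rw [← h2]
      exact Nat.dvd_sub_mod m
  · rw [if_neg hcm, if_neg]
    intro h2
    apply hcm
    rw [← h2]
    exact Nat.mod_le m N

theorem structure_thm {N : ℕ} {ω : ℂ} (hG : Good N ω) (k : ℕ) (hk : k < N) (j : ℕ)
    (p : ℂ[X]) (hp : p.Monic) (hd : p.natDegree = j * N + k)
    (ho : ∀ r : ℂ[X], r.natDegree < j * N + k →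
        ∫ z in interior (convexHull ℝ {w : ℂ | w ^ N = 1}),
          p.eval z * (starRingEnd ℂ) (r.eval z) = 0) :
    ∃ q : ℝ[X], q.Monic ∧ q.natDegree = j ∧
      p = X ^ k * (q.map (algebraMap ℝ ℂ)).comp (X ^ N) ∧
      ∀ b < j, (J ω (X ^ k * expand ℝ N q) (k + 1 + N * b)).im = 0 := by
  have hN := hG.pos
  set D := j * N + k with hD
  have hDlt : p.natDegree < N * (j + 1) := by
    rw [hd, hD, Nat.mul_add, mul_comm N j]
    omega
  -- the orthogonality relations
  have hrel : ∀ (ρ : ℂ →+ ℝ), (∀ (z : ℂ) (r : ℝ), ρ (z * r) = ρ z * r) → ∀ c < N, ∀ b,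
      c + N * b < D → (J ω (X ^ c * expand ℝ N (part ρ p N j c)) (c + 1 + N * b)).im = 0 := by
    intro ρ hρ c hc b hb
    set n := c + N * b with hn
    have hnc : n % N = c := by
      rw [hn, Nat.add_mul_mod_self_left]
      exact Nat.mod_eq_of_lt hc
    have h1 := ho (X ^ n) (by rw [natDegree_X_pow]; exact hb)
    have h2 : ∀ z : ℂ, p.eval z * (starRingEnd ℂ) ((X ^ n : ℂ[X]).eval z) =
        ∑ i ∈ Finset.range (D + 1), p.coeff i * (z ^ i * (starRingEnd ℂ) z ^ n) := by
      intro z
      rw [eval_eq_sum_range' (show p.natDegree < D + 1 by omega), eval_pow, eval_X, map_pow,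
        Finset.sum_mul]
      refine Finset.sum_congr rfl fun i _ => ?_
      ring
    simp_rw [h2] at h1
    rw [integral_finsetSum] at h1
    · simp_rw [integral_const_mul, hG.mom] at h1
      have h3 := congrArg ρ h1
      rw [map_sum, map_zero] at h3
      rw [im_J_eq_sum ω _ _ (D + 1)]
      · have hne : ((N : ℝ) / (n + 1)) ≠ 0 := by
          have : (N : ℝ) ≠ 0 := by exact_mod_cast (by omega : N ≠ 0)
          have : (n : ℝ) + 1 ≠ 0 := by positivity
          positivity
        apply (mul_eq_zero.1 (?_ : ((N : ℝ) / (n + 1)) * _ = 0)).resolve_left hne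
        rw [Finset.mul_sum, ← h3]
        refine Finset.sum_congr rfl fun i _ => ?_
        rw [full_coeff ρ p N j c i hN hc hDlt, hnc]
        have e : c + 1 + N * b = n + 1 := by omega
        rw [e]
        split_ifs with h4
        · have e2 : p.coeff i * ((N : ℂ) / (n + 1) * ((J ω (X ^ i) (n + 1)).im : ℂ)) =
              p.coeff i * (((N : ℝ) / (n + 1) * (J ω (X ^ i) (n + 1)).im : ℝ) : ℂ) := by
            push_cast
            ring
          rw [e2, hρ]
          ring
        · rw [mul_zero, map_zero]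
          ring
      · have : (X ^ c * expand ℝ N (part ρ p N j c)).natDegree ≤ D := by
          rw [natDegree_le_iff_coeff_eq_zero]
          intro i hi
          rw [full_coeff ρ p N j c i hN hc hDlt]
          split_ifs
          · rw [coeff_eq_zero_of_natDegree_lt (by omega), map_zero]
          · rfl
        omega
    · intro i _
      refine integrableOn_poly N hN _ ?_
      fun_prop
  -- vanishing of parts
  have hvan : ∀ (ρ : ℂ →+ ℝ), (∀ (z : ℂ) (r : ℝ), ρ (z * r) = ρ z * r) → ∀ c < N,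
      (c ≠ k ∨ ρ 1 = 0) → part ρ p N j c = 0 := by
    intro ρ hρ c hc hck
    by_contra hne
    have hfne : X ^ c * expand ℝ N (part ρ p N j c) ≠ 0 := by
      refine mul_ne_zero (pow_ne_zero _ X_ne_zero) ?_
      rw [Ne, expand_eq_zero (by omega)]
      exact hne
    by_cases hlt : c < k
    · have hA := hG.alt c hc (j + 1) _ hfne (fun b hb => hrel ρ hρ c hc b (by
        have : N * b ≤ N * j := Nat.mul_le_mul_left N (by omega)
        rw [hD, mul_comm j N]
        omega))
      have h1 := (Alt.of_expand hN hA).le_natDegree hne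
      have h2 := part_natDegree ρ p N j c
      omega
    · have hA := hG.alt c hc j _ hfne (fun b hb => hrel ρ hρ c hc b (by
        have : N * (b + 1) ≤ N * j := Nat.mul_le_mul_left N (by omega)
        rw [hD, mul_comm j N]
        rw [Nat.mul_add, Nat.mul_one] at this
        omega))
      have h1 := (Alt.of_expand hN hA).le_natDegree hne
      have h2 := part_natDegree ρ p N j c
      have h3 : (part ρ p N j c).natDegree = j := by omega
      have h4 : (part ρ p N j c).coeff j = 0 := by
        rw [part_coeff, if_pos (by omega)]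
        by_cases hck' : c = k
        · rcases hck with h | h
          · exact absurd hck' h
          · have : c + N * j = p.natDegree := by rw [hd, hD, hck', mul_comm]; ring
            rw [this, hp.coeff_natDegree, h]
        · rw [coeff_eq_zero_of_natDegree_lt, map_zero]
          rw [hd, hD, mul_comm j N]
          omega
      have h5 : (part ρ p N j c).leadingCoeff = 0 := by
        rw [leadingCoeff, h3]
        exact h4
      exact hne (leadingCoeff_eq_zero.1 h5)
  set re : ℂ →+ ℝ := Complex.reAddGroupHom with hre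
  set im : ℂ →+ ℝ := Complex.imAddGroupHom with him
  have hρre : ∀ (z : ℂ) (r : ℝ), re (z * r) = re z * r := fun z r => Complex.re_mul_ofReal z r
  have hρim : ∀ (z : ℂ) (r : ℝ), im (z * r) = im z * r := fun z r => Complex.im_mul_ofReal z r
  refine ⟨part re p N j k, ?_, ?_, ?_, ?_⟩
  · -- monic
    have hc : (part re p N j k).coeff j = 1 := by
      rw [part_coeff, if_pos (by omega)]
      have : k + N * j = p.natDegree := by rw [hd, hD, mul_comm]; ring
      rw [this, hp.coeff_natDegree]
      rfl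
    exact monic_of_natDegree_le_of_coeff_eq_one j (part_natDegree re p N j k) hc
  · have hc : (part re p N j k).coeff j = 1 := by
      rw [part_coeff, if_pos (by omega)]
      have : k + N * j = p.natDegree := by rw [hd, hD, mul_comm]; ring
      rw [this, hp.coeff_natDegree]
      rfl
    refine le_antisymm (part_natDegree re p N j k) (le_natDegree_of_ne_zero ?_)
    rw [hc]
    exact one_ne_zero
  · -- the formula
    have e1 : X ^ k * ((part re p N j k).map (algebraMap ℝ ℂ)).comp (X ^ N) =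
        (X ^ k * expand ℝ N (part re p N j k)).map (algebraMap ℝ ℂ) := by
      rw [Polynomial.map_mul, Polynomial.map_pow, map_X, map_expand, expand_eq_comp_X_pow]
    rw [e1]
    ext1 m
    rw [coeff_map, full_coeff re p N j k m hN hk hDlt]
    have hcoef : ∀ (ρ : ℂ →+ ℝ), part ρ p N j (m % N) = 0 → ρ (p.coeff m) = 0 := by
      intro ρ h
      have h1 := full_coeff ρ p N j (m % N) m hN (Nat.mod_lt _ (by omega)) hDlt
      rw [h, map_zero, mul_zero, coeff_zero, if_pos rfl] at h1
      exact h1.symm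
    have hi : (p.coeff m).im = 0 :=
      hcoef im (hvan im hρim _ (Nat.mod_lt _ (by omega)) (Or.inr (by simp [him])))
    split_ifs with h
    · apply Complex.ext
      · simp [hre]
      · simp [hi]
    · have hr : (p.coeff m).re = 0 :=
        hcoef re (hvan re hρre _ (Nat.mod_lt _ (by omega)) (Or.inl h))
      apply Complex.ext
      · simp [hr]
      · simp [hi]
  · intro b hb
    refine hrel re hρre k hk b ?_
    have : N * (b + 1) ≤ N * j := Nat.mul_le_mul_left N (by omega)
    rw [hD, mul_comm j N]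
    rw [Nat.mul_add, Nat.mul_one] at this
    omega

theorem final {N : ℕ} {ω : ℂ} (hG : Good N ω) (k : ℕ) (hk : k < N) (j : ℕ)
    (p p' : ℂ[X]) (hp : p.Monic) (hd : p.natDegree = j * N + k)
    (ho : ∀ r : ℂ[X], r.natDegree < j * N + k →
        ∫ z in interior (convexHull ℝ {w : ℂ | w ^ N = 1}),
          p.eval z * (starRingEnd ℂ) (r.eval z) = 0)
    (hp' : p'.Monic) (hd' : p'.natDegree = (j + 1) * N + k)
    (ho' : ∀ r : ℂ[X], r.natDegree < (j + 1) * N + k →
        ∫ z in interior (convexHull ℝ {w : ℂ | w ^ N = 1}),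
          p'.eval z * (starRingEnd ℂ) (r.eval z) = 0) :
    ∃ t s : ℕ → ℝ,
        p = X ^ k * (∏ ν ∈ Finset.range j, (X - C ((t ν : ℝ) : ℂ))).comp (X ^ N) ∧
        p' = X ^ k * (∏ ν ∈ Finset.range (j + 1), (X - C ((s ν : ℝ) : ℂ))).comp (X ^ N) ∧
        0 < s 0 ∧ s j < 1 ∧ ∀ ν, ν < j → s ν < t ν ∧ t ν < s (ν + 1) := by
  have hN := hG.pos
  obtain ⟨q, hq1, hq2, hq3, hq4⟩ := structure_thm hG k hk j p hp hd ho
  obtain ⟨Q, hQ1, hQ2, hQ3, hQ4⟩ := structure_thm hG k hk (j + 1) p' hp' hd' ho'
  have hcomb : ∀ α β : ℝ, X ^ k * expand ℝ N (C α * q + C β * Q) =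
      C α * (X ^ k * expand ℝ N q) + C β * (X ^ k * expand ℝ N Q) := by
    intro α β
    rw [map_add, map_mul, map_mul, expand_C, expand_C]
    ring
  have hne : ∀ f : ℝ[X], f ≠ 0 → X ^ k * expand ℝ N f ≠ 0 := by
    intro f hf
    refine mul_ne_zero (pow_ne_zero _ X_ne_zero) ?_
    rw [Ne, expand_eq_zero (by omega)]
    exact hf
  obtain ⟨t, s, h1, h2, h3, h4, h5⟩ := interlace hq1 hq2 hQ1 hQ2
    (fun α β hαβ => Alt.of_expand hN (hG.alt k hk j _ (hne _ hαβ) (fun b hb => by
      rw [hcomb, im_J_comb, hq4 b hb, hQ4 b (by omega), mul_zero, mul_zero, add_zero])))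
    (Alt.of_expand hN (hG.alt k hk (j + 1) _ (hne _ hQ1.ne_zero) hQ4))
  refine ⟨t, s, ?_, ?_, h3, h4, h5⟩
  · rw [hq3, h1, Polynomial.map_prod]
    simp
  · rw [hQ3, h2, Polynomial.map_prod]
    simp

theorem good4 : Good 4 Complex.I where
  pos := by norm_num
  mom := fun m n => by
    rw [moment4]
    norm_num
  alt := fun k hk j f hf h => alt4 k hk j f hf h

theorem exists_omega : ∃ ω : ℂ, ω ^ 2 + ω + 1 = 0 ∧ 0 < ω.im := by
  have h3 : (0 : ℝ) < Real.sqrt 3 := Real.sqrt_pos.2 (by norm_num)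
  have h3' : Real.sqrt 3 ^ 2 = 3 := Real.sq_sqrt (by norm_num)
  refine ⟨⟨-1 / 2, Real.sqrt 3 / 2⟩, ?_, by simp only; positivity⟩
  apply Complex.ext
  · simp [pow_two, Complex.mul_re]
    nlinarith
  · simp [pow_two, Complex.mul_im]
    ring

theorem good3 : ∃ ω : ℂ, Good 3 ω := by
  obtain ⟨ω, h, him⟩ := exists_omega
  exact ⟨ω, by norm_num, fun m n => by rw [moment3 h him]; norm_num,
    fun k hk j f hf h' => alt3 h him.ne' k hk j f hf h'⟩

end Pool.Agent.K3h94.Berg
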