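import Mathlib

set_option autoImplicit false

open Polynomial

namespace Pool.Agent.K3h94.Berg

/-- `f` has alternating signs at `j + 1` points of `(0,1)`. -/
def Alt (f : ℝ → ℝ) (j : ℕ) : Prop :=
  ∃ (σ : ℝ) (x : ℕ → ℝ), (∀ i ≤ j, 0 < x i ∧ x i < 1) ∧ (∀ i < j, x i < x (i + 1)) ∧
    ∀ i ≤ j, 0 < σ * (-1) ^ i * f (x i)

/-- `f` has alternating increments between `r + 1` points of `[0,1]`. -/
def Osc (f : ℝ → ℝ) (r : ℕ) : Prop :=
  ∃ (σ : ℝ) (y : ℕ → ℝ), (∀ i ≤ r, 0 ≤ y i ∧ y i ≤ 1) ∧ (∀ i < r, y i < y (i + 1)) ∧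
    ∀ i < r, 0 < σ * (-1) ^ i * (f (y (i + 1)) - f (y i))

theorem Osc.alt {f : ℝ[X]} {r : ℕ} (h : Osc (fun x => f.eval x) (r + 1)) :
    Alt (fun x => (derivative f).eval x) r := by
  obtain ⟨σ, y, h1, h2, h3⟩ := h
  have hmvt : ∀ i : ℕ, i ≤ r → ∃ c ∈ Set.Ioo (y i) (y (i + 1)),
      (derivative f).eval c = (f.eval (y (i + 1)) - f.eval (y i)) / (y (i + 1) - y i) := by
    intro i hi
    exact exists_hasDerivAt_eq_slope (fun x => f.eval x) (fun x => (derivative f).eval x)
      (h2 i (by omega)) (f.continuous.continuousOn) (fun x _ => f.hasDerivAt x)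
  choose! c hc1 hc2 using hmvt
  refine ⟨σ, c, fun i hi => ⟨?_, ?_⟩, fun i hi => ?_, fun i hi => ?_⟩
  · exact lt_of_le_of_lt (h1 i (by omega)).1 (hc1 i hi).1
  · exact lt_of_lt_of_le (hc1 i hi).2 (h1 (i + 1) (by omega)).2
  · exact (hc1 i hi.le).2.trans (hc1 (i + 1) (by omega)).1
  · have h4 := h3 i (by omega)
    have h5 : 0 < y (i + 1) - y i := sub_pos.2 (h2 i (by omega))
    simp only at h4 ⊢
    rw [hc2 i hi, ← mul_div_assoc]
    exact div_pos h4 h5

theorem Alt.osc {f : ℝ → ℝ} {j : ℕ} (h : Alt f (j + 1)) : Osc f (j + 1) := by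
  obtain ⟨σ, x, h1, h2, h3⟩ := h
  refine ⟨-σ, x, fun i hi => ⟨(h1 i hi).1.le, (h1 i hi).2.le⟩, h2, fun i hi => ?_⟩
  have h4 := h3 i hi.le
  have h5 := h3 (i + 1) (by omega)
  rw [pow_succ] at h5
  nlinarith

theorem Alt.osc_left {f : ℝ → ℝ} {j : ℕ} (h : Alt f j) (h0 : f 0 = 0) : Osc f (j + 1) := by
  obtain ⟨σ, x, h1, h2, h3⟩ := h
  refine ⟨σ, fun i => Nat.casesOn i 0 x, ?_, ?_, ?_⟩
  · rintro (_ | i) hi
    · simp
    · exact ⟨(h1 i (by omega)).1.le, (h1 i (by omega)).2.le⟩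
  · rintro (_ | i) hi
    · exact (h1 0 (by omega)).1
    · exact h2 i (by omega)
  · rintro (_ | i) hi
    · have := h3 0 (by omega)
      simpa [h0] using this
    · have h4 := h3 i (by omega)
      have h5 := h3 (i + 1) (by omega)
      show 0 < σ * (-1) ^ (i + 1) * (f (x (i + 1)) - f (x i))
      rw [pow_succ] at h5 ⊢
      nlinarith

theorem Alt.osc_right {f : ℝ → ℝ} {j : ℕ} (h : Alt f j) (h0 : f 1 = 0) : Osc f (j + 1) := by
  obtain ⟨σ, x, h1, h2, h3⟩ := h
  refine ⟨-σ, fun i => if i ≤ j then x i else 1, ?_, ?_, ?_⟩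
  · intro i hi
    by_cases hij : i ≤ j
    · simp only [hij, if_true]
      exact ⟨(h1 i hij).1.le, (h1 i hij).2.le⟩
    · simp [hij]
  · intro i hi
    have hij : i ≤ j := by omega
    simp only [hij, if_true]
    by_cases hij' : i + 1 ≤ j
    · simp only [hij', if_true]
      exact h2 i (by omega)
    · simp only [hij', if_false]
      exact (h1 i hij).2
  · intro i hi
    have hij : i ≤ j := by omega
    simp only [hij, if_true]
    have h4 := h3 i hij
    by_cases hij' : i + 1 ≤ j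
    · simp only [hij', if_true]
      have h5 := h3 (i + 1) hij'
      rw [pow_succ] at h5
      nlinarith
    · simp only [hij', if_false, h0]
      nlinarith

theorem Alt.osc_both {f : ℝ → ℝ} {j : ℕ} (h : Alt f j) (h0 : f 0 = 0) (h0' : f 1 = 0) :
    Osc f (j + 2) := by
  obtain ⟨σ, x, h1, h2, h3⟩ := h
  refine ⟨σ, fun i => Nat.casesOn i 0 (fun i => if i ≤ j then x i else 1), ?_, ?_, ?_⟩
  · rintro (_ | i) hi
    · simp
    · show 0 ≤ (if i ≤ j then x i else 1) ∧ (if i ≤ j then x i else 1) ≤ 1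
      by_cases hij : i ≤ j
      · simp only [hij, if_true]
        exact ⟨(h1 i hij).1.le, (h1 i hij).2.le⟩
      · simp [hij]
  · rintro (_ | i) hi
    · show 0 < (if 0 ≤ j then x 0 else 1)
      simp only [Nat.zero_le, if_true]
      exact (h1 0 (by omega)).1
    · show (if i ≤ j then x i else 1) < (if i + 1 ≤ j then x (i + 1) else 1)
      have hij : i ≤ j := by omega
      simp only [hij, if_true]
      by_cases hij' : i + 1 ≤ j
      · simp only [hij', if_true]
        exact h2 i (by omega)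
      · simp only [hij', if_false]
        exact (h1 i hij).2
  · rintro (_ | i) hi
    · show 0 < σ * (-1) ^ 0 * (f (if 0 ≤ j then x 0 else 1) - f 0)
      have := h3 0 (by omega)
      simpa [h0] using this
    · show 0 < σ * (-1) ^ (i + 1) * (f (if i + 1 ≤ j then x (i + 1) else 1) -
        f (if i ≤ j then x i else 1))
      have hij : i ≤ j := by omega
      simp only [hij, if_true]
      have h4 := h3 i hij
      by_cases hij' : i + 1 ≤ j
      · simp only [hij', if_true]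
        have h5 := h3 (i + 1) hij'
        rw [pow_succ] at h5 ⊢
        nlinarith
      · simp only [hij', if_false, h0']
        rw [pow_succ]
        nlinarith

theorem Alt.mono {f : ℝ → ℝ} {i j : ℕ} (h : Alt f j) (hij : i ≤ j) : Alt f i := by
  obtain ⟨σ, x, h1, h2, h3⟩ := h
  exact ⟨σ, x, fun l hl => h1 l (hl.trans hij), fun l hl => h2 l (lt_of_lt_of_le hl hij),
    fun l hl => h3 l (hl.trans hij)⟩

theorem alt_zero {f : ℝ[X]} (hf : f ≠ 0) : Alt (fun x => f.eval x) 0 := by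
  have : ∃ x ∈ Set.Ioo (0 : ℝ) 1, f.eval x ≠ 0 := by
    by_contra hcon
    push Not at hcon
    apply hf
    refine Polynomial.eq_zero_of_infinite_isRoot f ?_
    refine Set.Infinite.mono (s := Set.Ioo (0 : ℝ) 1) (fun x hx => hcon x hx) ?_
    exact Set.Ioo_infinite one_pos
  obtain ⟨x, hx, hfx⟩ := this
  refine ⟨f.eval x, fun _ => x, fun i hi => hx, fun i hi => absurd hi (by omega), fun i hi => ?_⟩
  have : i = 0 := by omega
  subst this
  simp only [pow_zero, mul_one]
  exact mul_self_pos.2 hfx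

/-! ### The functionals -/

/-- the moments against the powers of `1 + ω (1 - x)` -/
noncomputable def J (ω : ℂ) (g : ℝ[X]) (m : ℕ) : ℂ :=
  ∫ x in (0 : ℝ)..1, ((g.eval x : ℝ) : ℂ) * (1 + ω * (1 - (x : ℂ))) ^ m

theorem J_derivative (ω : ℂ) (g : ℝ[X]) (m : ℕ) :
    J ω (derivative g) m = (g.eval 1 : ℝ) - (g.eval 0 : ℝ) * (1 + ω) ^ m + m * ω * J ω g (m - 1) := by
  have hd : ∀ x : ℝ, HasDerivAt (fun x : ℝ => ((g.eval x : ℝ) : ℂ) * (1 + ω * (1 - (x : ℂ))) ^ m)
      ((((derivative g).eval x : ℝ) : ℂ) * (1 + ω * (1 - (x : ℂ))) ^ m +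
        ((g.eval x : ℝ) : ℂ) * (m * (1 + ω * (1 - (x : ℂ))) ^ (m - 1) * (ω * (0 - 1)))) x := by
    intro x
    have h1 : HasDerivAt (fun x : ℝ => ((g.eval x : ℝ) : ℂ)) (((derivative g).eval x : ℝ) : ℂ) x :=
      (g.hasDerivAt x).ofReal_comp
    have h2 : HasDerivAt (fun x : ℝ => 1 + ω * (1 - (x : ℂ))) (ω * (0 - 1)) x := by
      have h3 : HasDerivAt (fun x : ℝ => (x : ℂ)) 1 x := (hasDerivAt_id x).ofReal_comp
      exact (((hasDerivAt_const x (1 : ℂ)).sub h3).const_mul ω).const_add 1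
    exact h1.mul (h2.pow m)
  have hc1 : Continuous fun x : ℝ => (((derivative g).eval x : ℝ) : ℂ) *
      (1 + ω * (1 - (x : ℂ))) ^ m :=
    (Complex.continuous_ofReal.comp (derivative g).continuous).mul
      ((continuous_const.add (continuous_const.mul
        (continuous_const.sub Complex.continuous_ofReal))).pow m)
  have hc2 : Continuous fun x : ℝ => ((g.eval x : ℝ) : ℂ) * (m * (1 + ω * (1 - (x : ℂ))) ^ (m - 1) *
      (ω * (0 - 1))) :=
    (Complex.continuous_ofReal.comp g.continuous).mul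
      ((continuous_const.mul ((continuous_const.add (continuous_const.mul
        (continuous_const.sub Complex.continuous_ofReal))).pow (m - 1))).mul continuous_const)
  have hftc := intervalIntegral.integral_eq_sub_of_hasDerivAt (a := (0 : ℝ)) (b := 1)
    (fun x _ => hd x) ((hc1.add hc2).intervalIntegrable 0 1)
  rw [intervalIntegral.integral_add (hc1.intervalIntegrable 0 1) (hc2.intervalIntegrable 0 1)]
    at hftc
  have h3 : (∫ x in (0 : ℝ)..1, ((g.eval x : ℝ) : ℂ) * (m * (1 + ω * (1 - (x : ℂ))) ^ (m - 1) *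
      (ω * (0 - 1)))) = -(m * ω) * J ω g (m - 1) := by
    unfold J
    rw [← intervalIntegral.integral_const_mul]
    congr 1
    funext x
    ring
  rw [h3] at hftc
  have h4 : J ω (derivative g) m = ∫ x in (0 : ℝ)..1, (((derivative g).eval x : ℝ) : ℂ) *
      (1 + ω * (1 - (x : ℂ))) ^ m := rfl
  rw [← h4] at hftc
  push_cast at hftc
  simp only [sub_self, mul_zero, add_zero, one_pow, mul_one, sub_zero] at hftc
  linear_combination hftc

theorem exists_antideriv (f : ℝ[X]) : ∃ F : ℝ[X], derivative F = f ∧ F.eval 0 = 0 := by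
  induction f using Polynomial.induction_on' with
  | add p q hp hq =>
    obtain ⟨P, hP, hP0⟩ := hp
    obtain ⟨Q, hQ, hQ0⟩ := hq
    exact ⟨P + Q, by rw [derivative_add, hP, hQ], by rw [eval_add, hP0, hQ0, add_zero]⟩
  | monomial n a =>
    refine ⟨monomial (n + 1) (a / (n + 1)), ?_, by simp⟩
    rw [derivative_monomial]
    congr 1
    push_cast
    field_simp


theorem J_im_zero (ω : ℂ) (g : ℝ[X]) : (J ω g 0).im = 0 := by
  have : J ω g 0 = ((∫ x in (0 : ℝ)..1, g.eval x : ℝ) : ℂ) := by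
    unfold J
    rw [← intervalIntegral.integral_ofReal]
    simp
  rw [this, Complex.ofReal_im]

/-- the four-fold integration by parts -/
theorem J_four (g : ℝ[X]) (m : ℕ) (ω : ℂ) :
    J ω (derivative (derivative (derivative (derivative g)))) m =
      ((derivative (derivative (derivative g))).eval 1 : ℝ) -
        ((derivative (derivative (derivative g))).eval 0 : ℝ) * (1 + ω) ^ m + m * ω *
      (((derivative (derivative g)).eval 1 : ℝ) -
        ((derivative (derivative g)).eval 0 : ℝ) * (1 + ω) ^ (m - 1) + ((m - 1 : ℕ) : ℂ) * ω *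
      (((derivative g).eval 1 : ℝ) -
        ((derivative g).eval 0 : ℝ) * (1 + ω) ^ (m - 1 - 1) + ((m - 1 - 1 : ℕ) : ℂ) * ω *
      ((g.eval 1 : ℝ) -
        (g.eval 0 : ℝ) * (1 + ω) ^ (m - 1 - 1 - 1) + ((m - 1 - 1 - 1 : ℕ) : ℂ) * ω *
      J ω g (m - 1 - 1 - 1 - 1)))) := by
  rw [J_derivative, J_derivative, J_derivative, J_derivative]

/-- the three-fold integration by parts -/
theorem J_three (g : ℝ[X]) (m : ℕ) (ω : ℂ) :
    J ω (derivative (derivative (derivative g))) m =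
      ((derivative (derivative g)).eval 1 : ℝ) -
        ((derivative (derivative g)).eval 0 : ℝ) * (1 + ω) ^ m + m * ω *
      (((derivative g).eval 1 : ℝ) -
        ((derivative g).eval 0 : ℝ) * (1 + ω) ^ (m - 1) + ((m - 1 : ℕ) : ℂ) * ω *
      ((g.eval 1 : ℝ) -
        (g.eval 0 : ℝ) * (1 + ω) ^ (m - 1 - 1) + ((m - 1 - 1 : ℕ) : ℂ) * ω *
      J ω g (m - 1 - 1 - 1))) := by
  rw [J_derivative, J_derivative, J_derivative]

theorem exists_antideriv4 (f : ℝ[X]) : ∃ F : ℝ[X],
    derivative (derivative (derivative (derivative F))) = f ∧ F.eval 0 = 0 ∧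
      (derivative F).eval 0 = 0 ∧ (derivative (derivative F)).eval 0 = 0 ∧
      (derivative (derivative (derivative F))).eval 0 = 0 := by
  obtain ⟨F1, h1, h1'⟩ := exists_antideriv f
  obtain ⟨F2, h2, h2'⟩ := exists_antideriv F1
  obtain ⟨F3, h3, h3'⟩ := exists_antideriv F2
  obtain ⟨F4, h4, h4'⟩ := exists_antideriv F3
  refine ⟨F4, ?_, h4', ?_, ?_, ?_⟩
  · rw [h4, h3, h2, h1]
  · rw [h4, h3']
  · rw [h4, h3, h2']
  · rw [h4, h3, h2, h1']

theorem exists_antideriv3 (f : ℝ[X]) : ∃ F : ℝ[X],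
    derivative (derivative (derivative F)) = f ∧ F.eval 0 = 0 ∧
      (derivative F).eval 0 = 0 ∧ (derivative (derivative F)).eval 0 = 0 := by
  obtain ⟨F1, h1, h1'⟩ := exists_antideriv f
  obtain ⟨F2, h2, h2'⟩ := exists_antideriv F1
  obtain ⟨F3, h3, h3'⟩ := exists_antideriv F2
  refine ⟨F3, ?_, h3', ?_, ?_⟩
  · rw [h3, h2, h1]
  · rw [h3, h2']
  · rw [h3, h2, h1']

theorem one_add_I_pow_four (b : ℕ) : (1 + Complex.I) ^ (4 * b) = (-4 : ℂ) ^ b := by
  rw [pow_mul]
  congr 1
  have h2 : (1 + Complex.I) ^ 2 = 2 * Complex.I := by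
    have := Complex.I_sq
    linear_combination this
  calc (1 + Complex.I) ^ 4 = ((1 + Complex.I) ^ 2) ^ 2 := by ring
    _ = -4 := by
      rw [h2]
      have := Complex.I_sq
      linear_combination 4 * this

theorem one_add_I_pow_four_two (b : ℕ) :
    (1 + Complex.I) ^ (4 * b + 2) = (-4 : ℂ) ^ b * (2 * Complex.I) := by
  rw [pow_add, one_add_I_pow_four]
  congr 1
  have := Complex.I_sq
  linear_combination this

theorem neg_four_pow (b : ℕ) : ((-4 : ℂ) ^ b) = (((-4 : ℝ) ^ b : ℝ) : ℂ) := by push_cast; rfl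

end Pool.Agent.K3h94.Berg
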