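import Pool.Agent.K3h94.Berg.Area
import Pool.Agent.K3h94.Berg.OneD

set_option autoImplicit false

open MeasureTheory Complex Set

namespace Pool.Agent.K3h94.Berg

/-- the linear part of the affine parametrization -/
noncomputable def lin (U W : ℂ) : ℂ →L[ℝ] ℂ :=
  Complex.reCLM.smulRight U + Complex.imCLM.smulRight W

theorem lin_apply (U W w : ℂ) : lin U W w = w.re * U + w.im * W := by
  simp [lin]

theorem det_lin (U W : ℂ) : (lin U W).det = ((starRingEnd ℂ) U * W).im := by
  have h : (lin U W).det = LinearMap.det (lin U W : ℂ →ₗ[ℝ] ℂ) := rfl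
  rw [h, ← LinearMap.det_toMatrix Complex.basisOneI, Matrix.det_fin_two]
  simp only [LinearMap.toMatrix_apply, ContinuousLinearMap.coe_coe, lin_apply,
    Complex.coe_basisOneI, Complex.coe_basisOneI_repr, Matrix.cons_val_zero, Matrix.cons_val_one,
    Complex.one_re, Complex.one_im, Complex.I_re, Complex.I_im]
  simp [Complex.mul_im]
  ring

theorem aff_eq (A U W w : ℂ) : aff A U W w = A + lin U W w := by
  rw [lin_apply, aff]
  ring

theorem triangle_integral (A U W : ℂ) (hD : 0 < ((starRingEnd ℂ) U * W).im) (f : ℂ → ℂ) :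
    ∫ z in aff A U W '' Tri, f z =
      ((starRingEnd ℂ) U * W).im * ∫ w in Tri, f (aff A U W w) := by
  have hder : ∀ x ∈ Tri, HasFDerivWithinAt (aff A U W) (lin U W) Tri x := by
    intro x _
    have h1 : HasFDerivAt (fun w => A + lin U W w) (lin U W) x :=
      (lin U W).hasFDerivAt.const_add A
    have h2 : aff A U W = fun w => A + lin U W w := funext (aff_eq A U W)
    rw [h2]
    exact h1.hasFDerivWithinAt
  have hinj : InjOn (aff A U W) Tri := by
    intro x _ y _ hxy
    rw [aff, aff] at hxy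
    have h1 : ((x.re - y.re : ℝ) : ℂ) * U + ((x.im - y.im : ℝ) : ℂ) * W = 0 := by
      push_cast
      linear_combination hxy
    have h2 : (x.im - y.im) * ((starRingEnd ℂ) U * W).im = 0 := by
      have h3 : ((starRingEnd ℂ) U * (((x.re - y.re : ℝ) : ℂ) * U +
        ((x.im - y.im : ℝ) : ℂ) * W)).im = 0 := by rw [h1]; simp
      simp only [Complex.mul_im, Complex.add_im, Complex.add_re, Complex.mul_re,
        Complex.ofReal_re, Complex.ofReal_im, Complex.conj_re, Complex.conj_im] at h3 ⊢
      linarith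
    have h2' : (x.re - y.re) * ((starRingEnd ℂ) U * W).im = 0 := by
      have h3 : ((starRingEnd ℂ) W * (((x.re - y.re : ℝ) : ℂ) * U +
        ((x.im - y.im : ℝ) : ℂ) * W)).im = 0 := by rw [h1]; simp
      simp only [Complex.mul_im, Complex.add_im, Complex.add_re, Complex.mul_re,
        Complex.ofReal_re, Complex.ofReal_im, Complex.conj_re, Complex.conj_im] at h3 ⊢
      linarith
    apply Complex.ext
    · have := (mul_eq_zero.1 h2').resolve_right hD.ne'
      linarith
    · have := (mul_eq_zero.1 h2).resolve_right hD.ne'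
      linarith
  rw [integral_image_eq_integral_abs_det_fderiv_smul volume isClosed_Tri.measurableSet hder hinj]
  rw [det_lin, abs_of_pos hD, integral_smul, Complex.real_smul]

/-- Green's formula for a triangle -/
theorem green_triangle (A U W : ℂ) (hD : 0 < ((starRingEnd ℂ) U * W).im) (m n : ℕ) :
    2 * I * (n + 1) * (∫ z in aff A U W '' Tri, z ^ m * (starRingEnd ℂ) z ^ n) =
      edge m n A (A + U) + edge m n (A + U) (A + W) + edge m n (A + W) A := by
  rw [triangle_integral A U W hD]
  have h := green_aux A U W m n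
  have h1 : W * (starRingEnd ℂ) U - U * (starRingEnd ℂ) W = 2 * I * (((starRingEnd ℂ) U * W).im : ℂ) := by
    apply Complex.ext
    · simp [Complex.mul_re, Complex.mul_im]
      ring
    · simp [Complex.mul_re, Complex.mul_im]
      ring
  rw [h1] at h
  rw [edge_symm m n (A + W) A]
  linear_combination h

theorem edge_rot (m n : ℕ) (η P Q : ℂ) :
    edge m n (η * P) (η * Q) = η ^ (m + 1) * (starRingEnd ℂ) η ^ (n + 1) * edge m n P Q := by
  unfold edge
  rw [← intervalIntegral.integral_const_mul]
  congr 1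
  funext t
  have e : η * P + t * (η * Q - η * P) = η * (P + t * (Q - P)) := by ring
  rw [e, map_mul, mul_pow, mul_pow]
  ring

/-- the value of the edge integral on the side from `1` to `η` -/
theorem edge_side (m n : ℕ) (η : ℂ) (hη : η * (starRingEnd ℂ) η = 1)
    (hθ : η ^ (m + 1) * (starRingEnd ℂ) η ^ (n + 1) = 1) :
    edge m n 1 η = 2 * I * ((J η (Polynomial.X ^ m) (n + 1)).im : ℂ) := by
  set κ : ℂ := (starRingEnd ℂ) η with hκ
  -- a primitive
  obtain ⟨Φ, hΦ⟩ : ∃ Φ : Polynomial ℂ, Polynomial.derivative Φ =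
      Polynomial.X ^ m * (Polynomial.C (1 + κ) - Polynomial.C κ * Polynomial.X) ^ (n + 1) := by
    have hex : ∀ f : Polynomial ℂ, ∃ F : Polynomial ℂ, Polynomial.derivative F = f := by
      intro f
      induction f using Polynomial.induction_on' with
      | add p q hp hq =>
        obtain ⟨P, hP⟩ := hp
        obtain ⟨Q, hQ⟩ := hq
        exact ⟨P + Q, by rw [Polynomial.derivative_add, hP, hQ]⟩
      | monomial n a =>
        refine ⟨Polynomial.monomial (n + 1) (a / (n + 1)), ?_⟩
        rw [Polynomial.derivative_monomial]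
        congr 1
        push_cast
        have : (n : ℂ) + 1 ≠ 0 := by exact_mod_cast Nat.succ_ne_zero n
        field_simp
    exact hex _
  set g : ℂ → ℂ := fun z => z ^ m * (1 + κ - κ * z) ^ (n + 1) with hg
  have hgc : Continuous g := by
    rw [hg]
    fun_prop
  have hder : ∀ z : ℂ, HasDerivAt (fun z => Φ.eval z) (g z) z := by
    intro z
    have h := Φ.hasDerivAt z
    rw [hΦ] at h
    simpa [hg] using h
  have hpath : ∀ P Q : ℂ, ∫ t in (0 : ℝ)..1, g (P + t * (Q - P)) * (Q - P) =
      Φ.eval Q - Φ.eval P := by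
    intro P Q
    have h1 : ∀ t : ℝ, HasDerivAt (fun t : ℝ => Φ.eval (P + t * (Q - P)))
        (g (P + t * (Q - P)) * (Q - P)) t := by
      intro t
      have h3 : HasDerivAt (fun x : ℝ => (x : ℂ)) 1 t := (hasDerivAt_id t).ofReal_comp
      have h2 : HasDerivAt (fun t : ℝ => P + (t : ℂ) * (Q - P)) (Q - P) t := by
        simpa using (h3.mul_const (Q - P)).const_add P
      exact (hder _).comp t h2
    have hc : Continuous fun t : ℝ => g (P + t * (Q - P)) * (Q - P) :=
      (hgc.comp (by fun_prop)).mul continuous_const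
    have h := intervalIntegral.integral_eq_sub_of_hasDerivAt (a := (0 : ℝ)) (b := 1)
      (fun t _ => h1 t) (hc.intervalIntegrable _ _)
    rw [h]
    simp
  have h1 : edge m n 1 η = Φ.eval η - Φ.eval 1 := by
    rw [← hpath 1 η]
    unfold edge
    congr 1
    funext t
    have e : (starRingEnd ℂ) (1 + (t : ℂ) * (η - 1)) = 1 + κ - κ * (1 + t * (η - 1)) := by
      rw [map_add, map_mul, map_sub, map_one, Complex.conj_ofReal, ← hκ]
      linear_combination (t : ℂ) * hη
    rw [e]
  have h2 := hpath 0 η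
  have h3 := hpath 0 1
  have h4 : edge m n 1 η = (∫ t in (0 : ℝ)..1, g (0 + t * (η - 0)) * (η - 0)) -
      ∫ t in (0 : ℝ)..1, g (0 + t * (1 - 0)) * (1 - 0) := by
    rw [h1, h2, h3]
    ring
  rw [h4]
  have c1 : Continuous fun t : ℝ => g (0 + t * (η - 0)) * (η - 0) :=
    (hgc.comp (by fun_prop)).mul continuous_const
  have c2 : Continuous fun t : ℝ => g (0 + t * (1 - 0)) * (1 - 0) :=
    (hgc.comp (by fun_prop)).mul continuous_const
  rw [← intervalIntegral.integral_sub (c1.intervalIntegrable _ _) (c2.intervalIntegrable _ _)]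
  have hint : IntervalIntegrable (fun x : ℝ => (((Polynomial.X ^ m : Polynomial ℝ).eval x : ℝ) : ℂ) *
      (1 + η * (1 - (x : ℂ))) ^ (n + 1)) volume 0 1 := by
    apply Continuous.intervalIntegrable
    have : Continuous fun x : ℝ => (((Polynomial.X ^ m : Polynomial ℝ).eval x : ℝ) : ℂ) :=
      Complex.continuous_ofReal.comp (Polynomial.continuous _)
    exact this.mul (by fun_prop)
  have h5 : ((J η (Polynomial.X ^ m) (n + 1)).im : ℂ) =
      ∫ x in (0 : ℝ)..1, (((((Polynomial.X ^ m : Polynomial ℝ).eval x : ℝ) : ℂ) *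
        (1 + η * (1 - (x : ℂ))) ^ (n + 1)).im : ℂ) := by
    unfold J
    rw [intervalIntegral.integral_ofReal]
    congr 1
    have := (Complex.imCLM.intervalIntegral_comp_comm hint).symm
    exact this
  rw [h5, ← intervalIntegral.integral_const_mul]
  congr 1
  funext t
  have e1 : (starRingEnd ℂ) (1 + η * (1 - (t : ℂ))) = 1 + κ - κ * t := by
    rw [map_add, map_mul, map_sub, map_one, Complex.conj_ofReal, ← hκ]
    ring
  have e2 : 1 + κ - κ * (t * η) = κ * (1 + η * (1 - (t : ℂ))) := by
    linear_combination (-(1 : ℂ)) * hη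
  have e3 : ∀ z : ℂ, 2 * I * (z.im : ℂ) = z - (starRingEnd ℂ) z := by
    intro z
    apply Complex.ext <;> simp
    ring
  rw [e3]
  simp only [hg, zero_add, sub_zero, mul_one, map_mul, Complex.conj_ofReal, map_pow, e1,
    Polynomial.eval_pow, Polynomial.eval_X, Complex.ofReal_pow]
  rw [e2]
  rw [mul_pow, mul_pow]
  linear_combination ((t : ℂ) ^ m * (1 + η * (1 - (t : ℂ))) ^ (n + 1)) * hθ

theorem aff_subset {A U W : ℂ} {t : Set ℂ} (ht : Convex ℝ t) (hA : A ∈ t) (hU : A + U ∈ t)
    (hW : A + W ∈ t) : aff A U W '' Tri ⊆ t := by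
  rintro _ ⟨w, ⟨h1, h2, h3⟩, rfl⟩
  have h := ht.sum_mem (t := (Finset.univ : Finset (Fin 3)))
    (w := ![1 - w.re - w.im, w.re, w.im]) (z := ![A, A + U, A + W])
    (by
      intro i _
      fin_cases i
      · simp only [Fin.zero_eta, Matrix.cons_val_zero]; linarith
      · simpa using h1
      · simpa using h2)
    (by simp only [Fin.sum_univ_three, Matrix.cons_val]; ring)
    (by
      intro i _
      fin_cases i
      · simpa using hA
      · simpa using hU
      · simpa using hW)
  convert h using 1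
  simp [Fin.sum_univ_three, aff]
  ring

theorem convex_aff (A U W : ℂ) : Convex ℝ (aff A U W '' Tri) := by
  rintro _ ⟨x, ⟨x1, x2, x3⟩, rfl⟩ _ ⟨y, ⟨y1, y2, y3⟩, rfl⟩ a b ha hb hab
  refine ⟨a • x + b • y, ⟨?_, ?_, ?_⟩, ?_⟩
  · simp only [Complex.add_re, Complex.smul_re, smul_eq_mul]
    positivity
  · simp only [Complex.add_im, Complex.smul_im, smul_eq_mul]
    positivity
  · simp only [Complex.add_re, Complex.smul_re, Complex.add_im, Complex.smul_im, smul_eq_mul]
    nlinarith
  · have hab' : (a : ℂ) + b = 1 := by exact_mod_cast hab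
    simp only [aff, Complex.add_re, Complex.smul_re, Complex.add_im, Complex.smul_im, smul_eq_mul]
    rw [Complex.real_smul, Complex.real_smul]
    push_cast
    linear_combination (-A) * hab'

theorem isCompact_Tri : IsCompact Tri := by
  refine (isCompact_closedBall (0 : ℂ) 2).of_isClosed_subset isClosed_Tri ?_
  rintro w ⟨h1, h2, h3⟩
  rw [mem_closedBall_zero_iff]
  refine (Complex.norm_le_abs_re_add_abs_im w).trans ?_
  rw [abs_of_nonneg h1, abs_of_nonneg h2]
  linarith

theorem integral_interior_hull (s : Set ℂ) (f : ℂ → ℂ) :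
    ∫ z in interior (convexHull ℝ s), f z = ∫ z in convexHull ℝ s, f z :=
  setIntegral_congr_set (interior_ae_eq_of_null_frontier
    ((convex_convexHull ℝ s).addHaar_frontier volume))

/-! ### The triangle -/

section Three

variable {ω : ℂ}

theorem roots3 (h : ω ^ 2 + ω + 1 = 0) : {w : ℂ | w ^ 3 = 1} = {1, ω, ω ^ 2} := by
  ext w
  simp only [Set.mem_ofPred_eq, mem_insert_iff, mem_singleton_iff]
  constructor
  · intro hw
    have h1 : (w - 1) * ((w - ω) * (w - ω ^ 2)) = 0 := by
      linear_combination hw + (-w ^ 2 + w * ω - ω + 1) * h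
    rcases mul_eq_zero.1 h1 with h2 | h2
    · left; linear_combination h2
    · rcases mul_eq_zero.1 h2 with h3 | h3
      · right; left; linear_combination h3
      · right; right; linear_combination h3
  · rintro (rfl | rfl | rfl)
    · ring
    · linear_combination (w - 1) * h
    · linear_combination (ω ^ 3 + 1) * (ω - 1) * h

theorem hull3 (h : ω ^ 2 + ω + 1 = 0) :
    convexHull ℝ {w : ℂ | w ^ 3 = 1} = aff 1 (ω - 1) (ω ^ 2 - 1) '' Tri := by
  rw [roots3 h]
  apply Subset.antisymm
  · refine convexHull_min ?_ (convex_aff _ _ _)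
    rintro x (rfl | rfl | rfl)
    · exact ⟨0, by simp [Tri], by simp [aff]⟩
    · exact ⟨1, by simp [Tri], by simp [aff]⟩
    · exact ⟨I, by simp [Tri], by simp [aff]⟩
  · refine aff_subset (convex_convexHull ℝ _) (subset_convexHull ℝ _ (by simp))
      (subset_convexHull ℝ _ (by simp)) (subset_convexHull ℝ _ (by simp))

theorem conj3 (h : ω ^ 2 + ω + 1 = 0) (him : 0 < ω.im) : (starRingEnd ℂ) ω = ω ^ 2 := by
  have h1 : (starRingEnd ℂ) ω ^ 2 + (starRingEnd ℂ) ω + 1 = 0 := by
    have := congrArg (starRingEnd ℂ) h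
    simpa using this
  have h2 : (ω - (starRingEnd ℂ) ω) * (ω + (starRingEnd ℂ) ω + 1) = 0 := by
    linear_combination h - h1
  rcases mul_eq_zero.1 h2 with h3 | h3
  · exfalso
    have := congrArg Complex.im h3
    simp only [Complex.sub_im, Complex.conj_im, Complex.zero_im] at this
    linarith
  · linear_combination h3 - h

theorem pow_mod_three (h3 : ω ^ 3 = 1) (e : ℕ) : ω ^ e = ω ^ (e % 3) := by
  conv_lhs => rw [← Nat.div_add_mod e 3]
  rw [pow_add, pow_mul, h3, one_pow, one_mul]

theorem moment3 (h : ω ^ 2 + ω + 1 = 0) (him : 0 < ω.im) (m n : ℕ) :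
    ∫ z in interior (convexHull ℝ {w : ℂ | w ^ 3 = 1}), z ^ m * (starRingEnd ℂ) z ^ n =
      if m % 3 = n % 3 then 3 / (n + 1) * ((J ω (Polynomial.X ^ m) (n + 1)).im : ℂ) else 0 := by
  rw [integral_interior_hull, hull3 h]
  have h3 : ω ^ 3 = 1 := by linear_combination (ω - 1) * h
  have hc := conj3 h him
  have him2 : (ω ^ 2).im = -ω.im := by
    have : ω ^ 2 = -ω - 1 := by linear_combination h
    rw [this]
    simp
  have hD : 0 < ((starRingEnd ℂ) (ω - 1) * (ω ^ 2 - 1)).im := by
    have e : (starRingEnd ℂ) (ω - 1) * (ω ^ 2 - 1) = ω - 2 * ω ^ 2 + 1 := by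
      rw [map_sub, map_one, hc]
      linear_combination ω * h3
    rw [e]
    simp only [Complex.add_im, Complex.sub_im, Complex.one_im, add_zero]
    have : (2 * ω ^ 2).im = 2 * (ω ^ 2).im := by
      rw [show (2 : ℂ) = ((2 : ℝ) : ℂ) by norm_num, Complex.im_ofReal_mul]
    rw [this, him2]
    linarith
  have hg := green_triangle 1 (ω - 1) (ω ^ 2 - 1) hD m n
  rw [add_sub_cancel, add_sub_cancel] at hg
  set θ : ℂ := ω ^ (m + 1) * (starRingEnd ℂ) ω ^ (n + 1) with hθ
  have e1 : edge m n ω (ω ^ 2) = θ * edge m n 1 ω := by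
    have := edge_rot m n ω 1 ω
    rw [mul_one, ← pow_two] at this
    exact this
  have e2 : edge m n (ω ^ 2) 1 = θ * (θ * edge m n 1 ω) := by
    have := edge_rot m n ω ω (ω ^ 2)
    rw [← pow_two, ← pow_succ', h3, e1] at this
    exact this
  have hθ' : θ = ω ^ ((m + 2 * n) % 3) := by
    rw [hθ, hc, ← pow_mul, ← pow_add, pow_mod_three h3]
    congr 1
    omega
  have hn : (2 * I * (n + 1) : ℂ) ≠ 0 := by
    have : (n : ℂ) + 1 ≠ 0 := by exact_mod_cast Nat.succ_ne_zero n
    simp [this]
  split_ifs with hmn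
  · have hr : (m + 2 * n) % 3 = 0 := by omega
    rw [hr, pow_zero] at hθ'
    have hs := edge_side m n ω (by rw [hc]; linear_combination h3) hθ'
    rw [e1, e2, hθ', hs] at hg
    have hn1 : (n : ℂ) + 1 ≠ 0 := by exact_mod_cast Nat.succ_ne_zero n
    apply mul_left_cancel₀ hn
    rw [hg]
    field_simp
    ring
  · have hr : (m + 2 * n) % 3 = 1 ∨ (m + 2 * n) % 3 = 2 := by omega
    have hsum : 1 + θ + θ ^ 2 = 0 := by
      rcases hr with hr | hr
      · rw [hθ', hr]
        linear_combination h
      · rw [hθ', hr]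
        linear_combination (ω ^ 2 - ω + 1) * h
    apply mul_left_cancel₀ hn
    rw [hg, e1, e2]
    linear_combination (edge m n 1 ω) * hsum

end Three

/-! ### The square -/

theorem roots4 : {w : ℂ | w ^ 4 = 1} = {1, I, -1, -I} := by
  ext w
  simp only [Set.mem_ofPred_eq, mem_insert_iff, mem_singleton_iff]
  have hI := Complex.I_sq
  constructor
  · intro hw
    have h1 : (w - 1) * ((w - I) * ((w + 1) * (w + I))) = 0 := by
      linear_combination hw + (-(w ^ 2 - 1)) * hI
    rcases mul_eq_zero.1 h1 with h2 | h2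
    · left; linear_combination h2
    · rcases mul_eq_zero.1 h2 with h3 | h3
      · right; left; linear_combination h3
      · rcases mul_eq_zero.1 h3 with h4 | h4
        · right; right; left; linear_combination h4
        · right; right; right; linear_combination h4
  · rintro (rfl | rfl | rfl | rfl)
    · ring
    · linear_combination (I ^ 2 - 1) * hI
    · ring
    · linear_combination (I ^ 2 - 1) * hI

theorem hull4 :
    convexHull ℝ {w : ℂ | w ^ 4 = 1} =
      aff 1 (I - 1) (-2) '' Tri ∪ aff (-1) (1 - I) 2 '' Tri := by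
  rw [roots4]
  apply Subset.antisymm
  · have h1 : convexHull ℝ {1, I, -1, -I} ⊆ {z : ℂ | |z.re| + |z.im| ≤ 1} := by
      refine convexHull_min ?_ ?_
      · rintro x (rfl | rfl | rfl | rfl) <;> simp
      · intro x hx y hy a b ha hb hab
        simp only [Set.mem_ofPred_eq, Complex.add_re, Complex.add_im, Complex.smul_re,
          Complex.smul_im, smul_eq_mul] at hx hy ⊢
        have e1 : |a * x.re + b * y.re| ≤ a * |x.re| + b * |y.re| := by
          refine (abs_add_le _ _).trans ?_
          rw [abs_mul, abs_mul, abs_of_nonneg ha, abs_of_nonneg hb]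
        have e2 : |a * x.im + b * y.im| ≤ a * |x.im| + b * |y.im| := by
          refine (abs_add_le _ _).trans ?_
          rw [abs_mul, abs_mul, abs_of_nonneg ha, abs_of_nonneg hb]
        nlinarith
    refine h1.trans fun z hz => ?_
    simp only [Set.mem_ofPred_eq] at hz
    rcases le_total 0 z.im with him | him
    · left
      rw [abs_of_nonneg him] at hz
      have h2 := abs_le.1 (show |z.re| ≤ 1 - z.im by linarith)
      refine ⟨⟨z.im, (1 - z.re - z.im) / 2⟩, ⟨him, ?_, ?_⟩, ?_⟩
      · simp only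
        linarith
      · simp only
        linarith
      · apply Complex.ext
        · simp [aff]
          ring
        · simp [aff]
    · right
      rw [abs_of_nonpos him] at hz
      have h2 := abs_le.1 (show |z.re| ≤ 1 + z.im by linarith)
      refine ⟨⟨-z.im, (1 + z.re + z.im) / 2⟩, ⟨?_, ?_, ?_⟩, ?_⟩
      · simp only
        linarith
      · simp only
        linarith
      · simp only
        linarith
      · apply Complex.ext
        · simp [aff]
          ring
        · simp [aff]
  · apply union_subset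
    · refine aff_subset (convex_convexHull ℝ _) (subset_convexHull ℝ _ (by simp))
        (subset_convexHull ℝ _ (by simp)) (subset_convexHull ℝ _ ?_)
      right; right; left
      norm_num
    · refine aff_subset (convex_convexHull ℝ _) (subset_convexHull ℝ _ (by simp))
        (subset_convexHull ℝ _ ?_) (subset_convexHull ℝ _ ?_)
      · right; right; right
        show (-1 : ℂ) + (1 - I) = -I
        ring
      · left
        norm_num

theorem measurable_aff_image (A U W : ℂ) : MeasurableSet (aff A U W '' Tri) :=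
  (isCompact_Tri.image (continuous_aff A U W)).isClosed.measurableSet

theorem integral_hull4 (f : ℂ → ℂ) (hf : Continuous f) :
    ∫ z in convexHull ℝ {w : ℂ | w ^ 4 = 1}, f z =
      (∫ z in aff 1 (I - 1) (-2) '' Tri, f z) + ∫ z in aff (-1) (1 - I) 2 '' Tri, f z := by
  rw [hull4]
  refine setIntegral_union₀ ?_ (measurable_aff_image _ _ _).nullMeasurableSet
    (hf.continuousOn.integrableOn_compact (isCompact_Tri.image (continuous_aff _ _ _)))
    (hf.continuousOn.integrableOn_compact (isCompact_Tri.image (continuous_aff _ _ _)))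
  have hsub : aff 1 (I - 1) (-2) '' Tri ∩ aff (-1) (1 - I) 2 '' Tri ⊆
      ((LinearMap.ker Complex.imLm : Submodule ℝ ℂ) : Set ℂ) := by
    rintro z ⟨⟨x, ⟨x1, x2, x3⟩, rfl⟩, ⟨y, ⟨y1, y2, y3⟩, hxy⟩⟩
    have h1 := congrArg Complex.im hxy
    simp [aff] at h1
    have h2 : (aff 1 (I - 1) (-2) x).im = 0 := by
      simp [aff]
      linarith
    simpa using h2
  refine measure_mono_null hsub (Measure.addHaar_submodule volume _ ?_)
  intro h
  have : I ∈ (LinearMap.ker Complex.imLm : Submodule ℝ ℂ) := by rw [h]; trivial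
  simp at this

theorem I_pow_mod (e : ℕ) : I ^ e = I ^ (e % 4) := by
  conv_lhs => rw [← Nat.div_add_mod e 4]
  rw [pow_add, pow_mul, Complex.I_pow_four, one_pow, one_mul]

theorem moment4 (m n : ℕ) :
    ∫ z in interior (convexHull ℝ {w : ℂ | w ^ 4 = 1}), z ^ m * (starRingEnd ℂ) z ^ n =
      if m % 4 = n % 4 then 4 / (n + 1) * ((J I (Polynomial.X ^ m) (n + 1)).im : ℂ) else 0 := by
  rw [integral_interior_hull, integral_hull4 _ (by fun_prop)]
  have hD1 : 0 < ((starRingEnd ℂ) (I - 1) * (-2)).im := by simp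
  have hD2 : 0 < ((starRingEnd ℂ) (1 - I) * 2).im := by simp
  have hg1 := green_triangle 1 (I - 1) (-2) hD1 m n
  have hg2 := green_triangle (-1) (1 - I) 2 hD2 m n
  rw [show (1 : ℂ) + (I - 1) = I by ring, show (1 : ℂ) + -2 = -1 by ring] at hg1
  rw [show (-1 : ℂ) + (1 - I) = -I by ring, show (-1 : ℂ) + 2 = 1 by ring,
    edge_symm m n 1 (-1)] at hg2
  set θ : ℂ := I ^ (m + 1) * (starRingEnd ℂ) I ^ (n + 1) with hθ
  have hI := Complex.I_mul_I
  have e1 : edge m n I (-1) = θ * edge m n 1 I := by
    have := edge_rot m n I 1 I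
    rw [mul_one, hI] at this
    exact this
  have e2 : edge m n (-1) (-I) = θ * (θ * edge m n 1 I) := by
    have := edge_rot m n I I (-1)
    rw [hI, mul_neg, mul_one, e1] at this
    exact this
  have e3 : edge m n (-I) 1 = θ * (θ * (θ * edge m n 1 I)) := by
    have := edge_rot m n I (-1) (-I)
    rw [mul_neg, mul_neg, hI, mul_one, neg_neg, e2] at this
    exact this
  have hθ' : θ = I ^ ((m + 3 * n) % 4) := by
    have hc : (starRingEnd ℂ) I = I ^ 3 := by rw [Complex.conj_I, Complex.I_pow_three]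
    rw [hθ, hc, ← pow_mul, ← pow_add, I_pow_mod]
    congr 1
    omega
  have hn : (2 * I * (n + 1) : ℂ) ≠ 0 := by
    have : (n : ℂ) + 1 ≠ 0 := by exact_mod_cast Nat.succ_ne_zero n
    simp [this]
  have hg : 2 * I * (n + 1) * ((∫ z in aff 1 (I - 1) (-2) '' Tri, z ^ m * (starRingEnd ℂ) z ^ n) +
      ∫ z in aff (-1) (1 - I) 2 '' Tri, z ^ m * (starRingEnd ℂ) z ^ n) =
      (1 + θ + θ ^ 2 + θ ^ 3) * edge m n 1 I := by
    rw [mul_add, hg1, hg2, e1, e2, e3]
    ring
  split_ifs with hmn
  · have hr : (m + 3 * n) % 4 = 0 := by omega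
    rw [hr, pow_zero] at hθ'
    have hs := edge_side m n I (by rw [Complex.conj_I]; linear_combination (-1 : ℂ) * hI) hθ'
    rw [hθ', hs] at hg
    have hn1 : (n : ℂ) + 1 ≠ 0 := by exact_mod_cast Nat.succ_ne_zero n
    apply mul_left_cancel₀ hn
    rw [hg]
    field_simp
    ring
  · have hr : (m + 3 * n) % 4 = 1 ∨ (m + 3 * n) % 4 = 2 ∨ (m + 3 * n) % 4 = 3 := by omega
    have hI2 := Complex.I_sq
    have hsum : 1 + θ + θ ^ 2 + θ ^ 3 = 0 := by
      rcases hr with hr | hr | hr
      · rw [hθ', hr]
        linear_combination (I + 1) * hI2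
      · rw [hθ', hr]
        linear_combination (I ^ 4 + 1) * hI2
      · rw [hθ', hr]
        linear_combination (I ^ 7 - I ^ 5 + I ^ 4 + I ^ 3 - I ^ 2 + 1) * hI2 + 0 * hI2
    apply mul_left_cancel₀ hn
    rw [hg, hsum]
    ring

end Pool.Agent.K3h94.Berg
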