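import Pool.Agent.K3h94.Berg.OneD

set_option autoImplicit false

open Polynomial

namespace Pool.Agent.K3h94.Berg

open Complex (I)

/-! ### The case `N = 4` -/

theorem im4 (g : ℝ[X]) (n : ℕ)
    (hB : ((((derivative (derivative (derivative g))).eval 0 : ℝ) : ℂ) * (1 + I) ^ (n + 4) +
      (n + 4) * I * ((derivative (derivative g)).eval 0 : ℝ) * (1 + I) ^ (n + 3) -
      (n + 4) * (n + 3) * ((derivative g).eval 0 : ℝ) * (1 + I) ^ (n + 2) -
      (n + 4) * (n + 3) * (n + 2) * I * (g.eval 0 : ℝ) * (1 + I) ^ (n + 1)).im = 0) :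
    (J I (derivative (derivative (derivative (derivative g)))) (n + 4)).im =
      (n + 4) * (derivative (derivative g)).eval 1 - (n + 4) * (n + 3) * (n + 2) * g.eval 1 +
        (n + 4) * (n + 3) * (n + 2) * (n + 1) * (J I g n).im := by
  have h := J_four g (n + 4) I
  have e1 : n + 4 - 1 = n + 3 := by omega
  have e2 : n + 3 - 1 = n + 2 := by omega
  have e3 : n + 2 - 1 = n + 1 := by omega
  have e4 : n + 1 - 1 = n := by omega
  rw [e1, e2, e3, e4] at h
  push_cast at h
  have hI := Complex.I_sq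
  have h2 : J I (derivative (derivative (derivative (derivative g)))) (n + 4) =
      (((derivative (derivative (derivative g))).eval 1 - (n + 4) * (n + 3) *
        (derivative g).eval 1 : ℝ) : ℂ) +
      (((n + 4) * (derivative (derivative g)).eval 1 - (n + 4) * (n + 3) * (n + 2) * g.eval 1 : ℝ) :
        ℂ) * I + (((n + 4) * (n + 3) * (n + 2) * (n + 1) : ℝ) : ℂ) * J I g n -
      ((((derivative (derivative (derivative g))).eval 0 : ℝ) : ℂ) * (1 + I) ^ (n + 4) +
      (n + 4) * I * ((derivative (derivative g)).eval 0 : ℝ) * (1 + I) ^ (n + 3) -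
      (n + 4) * (n + 3) * ((derivative g).eval 0 : ℝ) * (1 + I) ^ (n + 2) -
      (n + 4) * (n + 3) * (n + 2) * I * (g.eval 0 : ℝ) * (1 + I) ^ (n + 1)) := by
    rw [h]
    push_cast
    linear_combination ((n + 4) * (n + 3) * ((derivative g).eval 1 : ℝ) +
      (n + 4) * (n + 3) * (n + 2) * I * (g.eval 1 : ℝ) +
      (n + 4) * (n + 3) * (n + 2) * (n + 1) * (I ^ 2 - 1) * J I g n -
      (n + 4) * (n + 3) * ((derivative g).eval 0 : ℝ) * (1 + I) ^ (n + 2) -
      (n + 4) * (n + 3) * (n + 2) * I * (g.eval 0 : ℝ) * (1 + I) ^ (n + 1) : ℂ) * hI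
  rw [h2, Complex.sub_im, hB, Complex.add_im, Complex.add_im, Complex.ofReal_im,
    Complex.im_ofReal_mul, Complex.im_ofReal_mul, Complex.I_im]
  ring

theorem im_real_pow4 (r : ℝ) (b : ℕ) : (((r : ℝ) : ℂ) * (1 + I) ^ (4 * b)).im = 0 := by
  rw [one_add_I_pow_four, neg_four_pow, ← Complex.ofReal_mul, Complex.ofReal_im]

theorem im_real_pow42 (r : ℝ) (b : ℕ) : (((r : ℝ) : ℂ) * (I * (1 + I) ^ (4 * b + 2))).im = 0 := by
  have h : I * (1 + I) ^ (4 * b + 2) = (((-2) * (-4) ^ b : ℝ) : ℂ) := by
    rw [one_add_I_pow_four_two, neg_four_pow]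
    push_cast
    linear_combination (2 * (-4 : ℂ) ^ b) * Complex.I_sq
  rw [h, ← Complex.ofReal_mul, Complex.ofReal_im]

theorem dX2 : derivative (X ^ 2 : ℝ[X]) = C 2 * X := by
  rw [derivative_X_pow]
  norm_num

theorem dX3 : derivative (X ^ 3 : ℝ[X]) = C 3 * X ^ 2 := by
  rw [derivative_X_pow]
  norm_num

/-- the transformation of the orthogonality conditions for `N = 4` -/
theorem step4 (k : ℕ) (hk : k < 4) (f : ℝ[X]) (h0 : (J I f (k + 1)).im = 0) :
    ∃ g : ℝ[X], derivative (derivative (derivative (derivative g))) = f ∧ g.eval 1 = 0 ∧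
      (derivative (derivative g)).eval 1 = 0 ∧ (k ≠ 0 → g.eval 0 = 0) ∧
      (k ≠ 1 → (derivative g).eval 0 = 0) ∧ (k ≠ 2 → (derivative (derivative g)).eval 0 = 0) ∧
      (k ≠ 3 → (derivative (derivative (derivative g))).eval 0 = 0) ∧
      ∀ b, (J I f (k + 1 + 4 * (b + 1))).im = 0 → (J I g (k + 1 + 4 * b)).im = 0 := by
  obtain ⟨F, hF, h1, h2, h3, h4⟩ := exists_antideriv4 f
  set c : ℝ := -F.eval 1 with hc
  have hcoef : ∀ n : ℕ, ((n : ℝ) + 4) * (n + 3) * (n + 2) * (n + 1) ≠ 0 := fun n => by positivity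
  interval_cases k
  · -- k = 0
    set g : ℝ[X] := F + C c with hg
    have d1 : derivative g = derivative F := by simp [hg]
    have e0 : g.eval 1 = 0 := by simp [hg, hc]
    have e2 : (derivative (derivative g)).eval 1 = 0 := by
      have h := J_four g 1 I
      rw [d1, hF, h2, h3, h4] at h
      rw [show (0 + 1 : ℕ) = 1 from rfl, h] at h0
      rw [d1]
      simpa using h0
    refine ⟨g, by rw [d1, hF], e0, e2, by simp, by simp [d1, h2], by simp [d1, h3],
      by simp [d1, h4], fun b hb => ?_⟩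
    have h := im4 g (4 * b + 1) (by
      rw [d1, h2, h3, h4]
      have := im_real_pow42 (-(((4 * b + 1 : ℕ) : ℝ) + 4) * (((4 * b + 1 : ℕ) : ℝ) + 3) *
        (((4 * b + 1 : ℕ) : ℝ) + 2) * g.eval 0) b
      rw [show 4 * b + 1 + 1 = 4 * b + 2 by ring]
      convert this using 2
      push_cast
      ring)
    rw [d1, hF, ← d1, e0, e2, show 4 * b + 1 + 4 = 0 + 1 + 4 * (b + 1) by ring, hb] at h
    have h' := (mul_eq_zero.1 (by linarith : ((4 * b + 1 : ℕ) + 4 : ℝ) * ((4 * b + 1 : ℕ) + 3) *
      ((4 * b + 1 : ℕ) + 2) * ((4 * b + 1 : ℕ) + 1) * (J I g (4 * b + 1)).im = 0)).resolve_left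
      (hcoef _)
    rw [show 0 + 1 + 4 * b = 4 * b + 1 by ring]
    exact h'
  · -- k = 1
    set g : ℝ[X] := F + C c * X with hg
    have d1 : derivative g = derivative F + C c := by simp [hg]
    have d2 : derivative (derivative g) = derivative (derivative F) := by simp [d1]
    have e0 : g.eval 1 = 0 := by simp [hg, hc]
    have z0 : g.eval 0 = 0 := by simp [hg, h1]
    have e2 : (derivative (derivative g)).eval 1 = 0 := by
      have h := J_four g 2 I
      rw [d2, hF, h3, h4, z0, e0] at h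
      rw [show (1 + 1 : ℕ) = 2 from rfl, h] at h0
      rw [d2]
      simpa using h0
    refine ⟨g, by rw [d2, hF], e0, e2, by simp [z0], by simp, by simp [d2, h3],
      by simp [d2, h4], fun b hb => ?_⟩
    have h := im4 g (4 * b + 2) (by
      rw [d2, h3, h4, z0]
      have := im_real_pow4 (-(((4 * b + 2 : ℕ) : ℝ) + 4) * (((4 * b + 2 : ℕ) : ℝ) + 3) *
        (derivative g).eval 0) (b + 1)
      rw [show 4 * b + 2 + 2 = 4 * (b + 1) by ring]
      convert this using 2
      push_cast
      ring)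
    rw [d2, hF, ← d2, e0, e2, show 4 * b + 2 + 4 = 1 + 1 + 4 * (b + 1) by ring, hb] at h
    have h' := (mul_eq_zero.1 (by linarith : ((4 * b + 2 : ℕ) + 4 : ℝ) * ((4 * b + 2 : ℕ) + 3) *
      ((4 * b + 2 : ℕ) + 2) * ((4 * b + 2 : ℕ) + 1) * (J I g (4 * b + 2)).im = 0)).resolve_left
      (hcoef _)
    rw [show 1 + 1 + 4 * b = 4 * b + 2 by ring]
    exact h'
  · -- k = 2
    set g : ℝ[X] := F + C c * X ^ 2 with hg
    have d1 : derivative g = derivative F + C c * (C 2 * X) := by
      rw [hg, derivative_add, derivative_C_mul, dX2]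
    have d2 : derivative (derivative g) = derivative (derivative F) + C c * C 2 := by
      rw [d1, derivative_add, derivative_C_mul, derivative_C_mul, derivative_X, mul_one]
    have d3 : derivative (derivative (derivative g)) = derivative (derivative (derivative F)) := by
      rw [d2, derivative_add, ← C_mul, derivative_C, add_zero]
    have e0 : g.eval 1 = 0 := by simp [hg, hc]
    have z0 : g.eval 0 = 0 := by simp [hg, h1]
    have z1 : (derivative g).eval 0 = 0 := by rw [d1]; simp [h2]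
    have e2 : (derivative (derivative g)).eval 1 = 0 := by
      have h := J_four g 3 I
      rw [d3, hF, h4, z0, z1, e0] at h
      rw [show (2 + 1 : ℕ) = 3 from rfl, h] at h0
      simp [pow_two] at h0
      linarith
    refine ⟨g, by rw [d3, hF], e0, e2, by simp [z0], by simp [z1], by simp,
      by simp [d3, h4], fun b hb => ?_⟩
    have h := im4 g (4 * b + 3) (by
      rw [d3, h4, z0, z1]
      have := im_real_pow42 ((((4 * b + 3 : ℕ) : ℝ) + 4) * (derivative (derivative g)).eval 0)
        (b + 1)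
      rw [show 4 * b + 3 + 3 = 4 * (b + 1) + 2 by ring]
      convert this using 2
      push_cast
      ring)
    rw [d3, hF, e0, e2, show 4 * b + 3 + 4 = 2 + 1 + 4 * (b + 1) by ring, hb] at h
    have h' := (mul_eq_zero.1 (by linarith : ((4 * b + 3 : ℕ) + 4 : ℝ) * ((4 * b + 3 : ℕ) + 3) *
      ((4 * b + 3 : ℕ) + 2) * ((4 * b + 3 : ℕ) + 1) * (J I g (4 * b + 3)).im = 0)).resolve_left
      (hcoef _)
    rw [show 2 + 1 + 4 * b = 4 * b + 3 by ring]
    exact h'
  · -- k = 3
    set g : ℝ[X] := F + C c * X ^ 3 with hg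
    have d1 : derivative g = derivative F + C c * (C 3 * X ^ 2) := by
      rw [hg, derivative_add, derivative_C_mul, dX3]
    have d2 : derivative (derivative g) = derivative (derivative F) + C c * (C 3 * (C 2 * X)) := by
      rw [d1, derivative_add, derivative_C_mul, derivative_C_mul, dX2]
    have d3 : derivative (derivative (derivative g)) =
        derivative (derivative (derivative F)) + C c * (C 3 * C 2) := by
      rw [d2, derivative_add, derivative_C_mul, derivative_C_mul, derivative_C_mul, derivative_X,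
        mul_one]
    have d4 : derivative (derivative (derivative (derivative g))) =
        derivative (derivative (derivative (derivative F))) := by
      rw [d3, derivative_add, derivative_C_mul, ← C_mul, derivative_C, mul_zero, add_zero]
    have e0 : g.eval 1 = 0 := by simp [hg, hc]
    have z0 : g.eval 0 = 0 := by simp [hg, h1]
    have z1 : (derivative g).eval 0 = 0 := by rw [d1]; simp [h2]
    have z2 : (derivative (derivative g)).eval 0 = 0 := by rw [d2]; simp [h3]
    have e2 : (derivative (derivative g)).eval 1 = 0 := by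
      have h := im4 g 0 (by
        rw [z0, z1, z2]
        have := im_real_pow4 ((derivative (derivative (derivative g))).eval 0) 1
        simpa using this)
      rw [d4, hF, e0, J_im_zero] at h
      rw [show (3 + 1 : ℕ) = 0 + 4 from rfl, h] at h0
      simp at h0
      exact h0
    refine ⟨g, by rw [d4, hF], e0, e2, by simp [z0], by simp [z1], by simp [z2],
      by simp, fun b hb => ?_⟩
    have h := im4 g (4 * b + 4) (by
      rw [z0, z1, z2]
      have := im_real_pow4 ((derivative (derivative (derivative g))).eval 0) (b + 2)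
      rw [show 4 * b + 4 + 4 = 4 * (b + 2) by ring]
      convert this using 2
      push_cast
      ring)
    rw [d4, hF, e0, e2, show 4 * b + 4 + 4 = 3 + 1 + 4 * (b + 1) by ring, hb] at h
    have h' := (mul_eq_zero.1 (by linarith : ((4 * b + 4 : ℕ) + 4 : ℝ) * ((4 * b + 4 : ℕ) + 3) *
      ((4 * b + 4 : ℕ) + 2) * ((4 * b + 4 : ℕ) + 1) * (J I g (4 * b + 4)).im = 0)).resolve_left
      (hcoef _)
    rw [show 3 + 1 + 4 * b = 4 * b + 4 by ring]
    exact h'

/-- `j` orthogonality relations give `j` sign changes, `N = 4` -/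
theorem alt4 (k : ℕ) (hk : k < 4) (j : ℕ) : ∀ f : ℝ[X], f ≠ 0 →
    (∀ b < j, (J I f (k + 1 + 4 * b)).im = 0) → Alt (fun x => f.eval x) j := by
  induction j with
  | zero => exact fun f hf _ => alt_zero hf
  | succ j ih =>
    intro f hf h
    obtain ⟨g, hg, e0, e2, z0, z1, z2, z3, hb⟩ := step4 k hk f (h 0 (by omega))
    have hg0 : g ≠ 0 := by
      rintro rfl
      apply hf
      rw [← hg]
      simp
    have a0 := ih g hg0 (fun b hb' => hb b (h (b + 1) (by omega)))
    rw [← hg]
    interval_cases k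
    · exact ((((a0.osc_right e0).alt.osc_left (z1 (by omega))).alt.osc_both
        (z2 (by omega)) e2).alt.osc_left (z3 (by omega))).alt
    · exact ((((a0.osc_both (z0 (by omega)) e0).alt.osc).alt.osc_both
        (z2 (by omega)) e2).alt.osc_left (z3 (by omega))).alt
    · exact ((((a0.osc_both (z0 (by omega)) e0).alt.osc_left (z1 (by omega))).alt.osc_right
        e2).alt.osc_left (z3 (by omega))).alt
    · exact ((((a0.osc_both (z0 (by omega)) e0).alt.osc_left (z1 (by omega))).alt.osc_both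
        (z2 (by omega)) e2).alt.osc).alt

/-! ### The case `N = 3` -/

section Three

variable {ω : ℂ}

theorem om3 (h : ω ^ 2 + ω + 1 = 0) : ω ^ 3 = 1 := by linear_combination (ω - 1) * h

theorem zeta3 (h : ω ^ 2 + ω + 1 = 0) (b : ℕ) : (1 + ω) ^ (3 * b) = (-1 : ℂ) ^ b := by
  rw [pow_mul]
  congr 1
  have h1 : 1 + ω = -ω ^ 2 := by linear_combination h
  rw [h1]
  have := om3 h
  linear_combination (-(ω ^ 3 + 1)) * this

theorem im3 (h : ω ^ 2 + ω + 1 = 0) (g : ℝ[X]) (n : ℕ)
    (hB : ((((derivative (derivative g)).eval 0 : ℝ) : ℂ) * (1 + ω) ^ (n + 3) +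
      (n + 3) * ω * ((derivative g).eval 0 : ℝ) * (1 + ω) ^ (n + 2) +
      (n + 3) * (n + 2) * ω ^ 2 * (g.eval 0 : ℝ) * (1 + ω) ^ (n + 1)).im = 0) :
    (J ω (derivative (derivative (derivative g))) (n + 3)).im =
      ((n + 3) * (derivative g).eval 1 - (n + 3) * (n + 2) * g.eval 1) * ω.im +
        (n + 3) * (n + 2) * (n + 1) * (J ω g n).im := by
  have h1 := J_three g (n + 3) ω
  have e2 : n + 3 - 1 = n + 2 := by omega
  have e3 : n + 2 - 1 = n + 1 := by omega
  have e4 : n + 1 - 1 = n := by omega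
  rw [e2, e3, e4] at h1
  push_cast at h1
  have h2 : J ω (derivative (derivative (derivative g))) (n + 3) =
      (((derivative (derivative g)).eval 1 - (n + 3) * (n + 2) * g.eval 1 : ℝ) : ℂ) +
      (((n + 3) * (derivative g).eval 1 - (n + 3) * (n + 2) * g.eval 1 : ℝ) :
        ℂ) * ω + (((n + 3) * (n + 2) * (n + 1) : ℝ) : ℂ) * J ω g n -
      ((((derivative (derivative g)).eval 0 : ℝ) : ℂ) * (1 + ω) ^ (n + 3) +
      (n + 3) * ω * ((derivative g).eval 0 : ℝ) * (1 + ω) ^ (n + 2) +
      (n + 3) * (n + 2) * ω ^ 2 * (g.eval 0 : ℝ) * (1 + ω) ^ (n + 1)) := by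
    rw [h1]
    push_cast
    linear_combination ((n + 3) * (n + 2) * (g.eval 1 : ℝ) : ℂ) * h +
      ((n + 3) * (n + 2) * (n + 1) * J ω g n : ℂ) * om3 h
  rw [h2, Complex.sub_im, hB, Complex.add_im, Complex.add_im, Complex.ofReal_im,
    Complex.im_ofReal_mul, Complex.im_ofReal_mul]
  ring

theorem im_real_zeta (h : ω ^ 2 + ω + 1 = 0) (r : ℝ) (b : ℕ) :
    (((r : ℝ) : ℂ) * (1 + ω) ^ (3 * b)).im = 0 := by
  rw [zeta3 h]
  have : ((-1 : ℂ) ^ b) = (((-1) ^ b : ℝ) : ℂ) := by push_cast; rfl
  rw [this, ← Complex.ofReal_mul, Complex.ofReal_im]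

theorem im_real_zeta1 (h : ω ^ 2 + ω + 1 = 0) (r : ℝ) (b : ℕ) :
    (((r : ℝ) : ℂ) * (ω * (1 + ω) ^ (3 * b + 1))).im = 0 := by
  have e : ω * (1 + ω) ^ (3 * b + 1) = (-(-1) ^ b : ℝ) := by
    rw [pow_succ, zeta3 h]
    push_cast
    linear_combination ((-1 : ℂ) ^ b) * h
  rw [e, ← Complex.ofReal_mul, Complex.ofReal_im]

theorem im_real_zeta2 (h : ω ^ 2 + ω + 1 = 0) (r : ℝ) (b : ℕ) :
    (((r : ℝ) : ℂ) * (ω ^ 2 * (1 + ω) ^ (3 * b + 2))).im = 0 := by
  have e : ω ^ 2 * (1 + ω) ^ (3 * b + 2) = ((-1) ^ b : ℝ) := by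
    rw [pow_add, zeta3 h]
    push_cast
    linear_combination ((-1 : ℂ) ^ b * (ω ^ 2 + ω - 1)) * h
  rw [e, ← Complex.ofReal_mul, Complex.ofReal_im]

/-- the transformation of the orthogonality conditions for `N = 3` -/
theorem step3 (h : ω ^ 2 + ω + 1 = 0) (him : ω.im ≠ 0) (k : ℕ) (hk : k < 3) (f : ℝ[X])
    (h0 : (J ω f (k + 1)).im = 0) :
    ∃ g : ℝ[X], derivative (derivative (derivative g)) = f ∧ g.eval 1 = 0 ∧
      (derivative g).eval 1 = 0 ∧ (k ≠ 0 → g.eval 0 = 0) ∧
      (k ≠ 1 → (derivative g).eval 0 = 0) ∧ (k ≠ 2 → (derivative (derivative g)).eval 0 = 0) ∧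
      ∀ b, (J ω f (k + 1 + 3 * (b + 1))).im = 0 → (J ω g (k + 1 + 3 * b)).im = 0 := by
  obtain ⟨F, hF, h1, h2, h3⟩ := exists_antideriv3 f
  set c : ℝ := -F.eval 1 with hc
  have hcoef : ∀ n : ℕ, ((n : ℝ) + 3) * (n + 2) * (n + 1) ≠ 0 := fun n => by positivity
  interval_cases k
  · -- k = 0
    set g : ℝ[X] := F + C c with hg
    have d1 : derivative g = derivative F := by simp [hg]
    have e0 : g.eval 1 = 0 := by simp [hg, hc]
    have e2 : (derivative g).eval 1 = 0 := by
      have h' := J_three g 1 ω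
      rw [d1, hF, h2, h3] at h'
      rw [show (0 + 1 : ℕ) = 1 from rfl, h'] at h0
      rw [d1]
      simp at h0
      exact h0.resolve_left him
    refine ⟨g, by rw [d1, hF], e0, e2, by simp, by simp [d1, h2], by simp [d1, h3],
      fun b hb => ?_⟩
    have h' := im3 h g (3 * b + 1) (by
      rw [d1, h2, h3]
      have := im_real_zeta2 h ((((3 * b + 1 : ℕ) : ℝ) + 3) * (((3 * b + 1 : ℕ) : ℝ) + 2) *
        g.eval 0) b
      rw [show 3 * b + 1 + 1 = 3 * b + 2 by ring]
      convert this using 2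
      push_cast
      ring)
    rw [d1, hF, ← d1, e0, e2, show 3 * b + 1 + 3 = 0 + 1 + 3 * (b + 1) by ring, hb] at h'
    have h'' := (mul_eq_zero.1 (by linarith : ((3 * b + 1 : ℕ) + 3 : ℝ) * ((3 * b + 1 : ℕ) + 2) *
      ((3 * b + 1 : ℕ) + 1) * (J ω g (3 * b + 1)).im = 0)).resolve_left (hcoef _)
    rw [show 0 + 1 + 3 * b = 3 * b + 1 by ring]
    exact h''
  · -- k = 1
    set g : ℝ[X] := F + C c * X with hg
    have d1 : derivative g = derivative F + C c := by simp [hg]
    have d2 : derivative (derivative g) = derivative (derivative F) := by simp [d1]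
    have e0 : g.eval 1 = 0 := by simp [hg, hc]
    have z0 : g.eval 0 = 0 := by simp [hg, h1]
    have e2 : (derivative g).eval 1 = 0 := by
      have h' := J_three g 2 ω
      rw [d2, hF, h3, z0, e0] at h'
      rw [show (1 + 1 : ℕ) = 2 from rfl, h'] at h0
      have e : (((0 : ℝ) : ℂ)) = 0 := Complex.ofReal_zero
      have h5 : (((derivative (derivative F)).eval 1 : ℝ) : ℂ) - ((0 : ℝ) : ℂ) * (1 + ω) ^ 2 +
          ((2 : ℕ) : ℂ) * ω * (((derivative g).eval 1 : ℝ) -
            ((derivative g).eval 0 : ℝ) * (1 + ω) ^ (2 - 1) + ((2 - 1 : ℕ) : ℂ) * ω *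
            ((0 : ℝ) - ((0 : ℝ) : ℂ) * (1 + ω) ^ (2 - 1 - 1) + ((2 - 1 - 1 : ℕ) : ℂ) * ω *
              J ω g (2 - 1 - 1 - 1))) =
          (((derivative (derivative F)).eval 1 + 2 * (derivative g).eval 0 : ℝ) : ℂ) +
            ((2 * (derivative g).eval 1 : ℝ) : ℂ) * ω := by
        norm_num
        linear_combination (-2 * ((derivative g).eval 0 : ℝ) : ℂ) * h
      rw [h5, Complex.add_im, Complex.ofReal_im, Complex.im_ofReal_mul, zero_add] at h0
      have := (mul_eq_zero.1 h0).resolve_right him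
      linarith
    refine ⟨g, by rw [d2, hF], e0, e2, by simp [z0], by simp, by simp [d2, h3],
      fun b hb => ?_⟩
    have h' := im3 h g (3 * b + 2) (by
      rw [d2, h3, z0]
      have := im_real_zeta1 h ((((3 * b + 2 : ℕ) : ℝ) + 3) * (derivative g).eval 0) (b + 1)
      rw [show 3 * b + 2 + 2 = 3 * (b + 1) + 1 by ring]
      convert this using 2
      push_cast
      ring)
    rw [d2, hF, e0, e2, show 3 * b + 2 + 3 = 1 + 1 + 3 * (b + 1) by ring, hb] at h'
    have h'' := (mul_eq_zero.1 (by linarith : ((3 * b + 2 : ℕ) + 3 : ℝ) * ((3 * b + 2 : ℕ) + 2) *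
      ((3 * b + 2 : ℕ) + 1) * (J ω g (3 * b + 2)).im = 0)).resolve_left (hcoef _)
    rw [show 1 + 1 + 3 * b = 3 * b + 2 by ring]
    exact h''
  · -- k = 2
    set g : ℝ[X] := F + C c * X ^ 2 with hg
    have d1 : derivative g = derivative F + C c * (C 2 * X) := by
      rw [hg, derivative_add, derivative_C_mul, dX2]
    have d2 : derivative (derivative g) = derivative (derivative F) + C c * C 2 := by
      rw [d1, derivative_add, derivative_C_mul, derivative_C_mul, derivative_X, mul_one]
    have d3 : derivative (derivative (derivative g)) = derivative (derivative (derivative F)) := by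
      rw [d2, derivative_add, ← C_mul, derivative_C, add_zero]
    have e0 : g.eval 1 = 0 := by simp [hg, hc]
    have z0 : g.eval 0 = 0 := by simp [hg, h1]
    have z1 : (derivative g).eval 0 = 0 := by rw [d1]; simp [h2]
    have e2 : (derivative g).eval 1 = 0 := by
      have h' := im3 h g 0 (by
        rw [z0, z1]
        have := im_real_zeta h ((derivative (derivative g)).eval 0) 1
        simpa using this)
      rw [d3, hF, e0, J_im_zero] at h'
      rw [show (2 + 1 : ℕ) = 0 + 3 from rfl, h'] at h0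
      simp at h0
      exact h0.resolve_right him
    refine ⟨g, by rw [d3, hF], e0, e2, by simp [z0], by simp [z1], by simp, fun b hb => ?_⟩
    have h' := im3 h g (3 * b + 3) (by
      rw [z0, z1]
      have := im_real_zeta h ((derivative (derivative g)).eval 0) (b + 2)
      rw [show 3 * b + 3 + 3 = 3 * (b + 2) by ring]
      convert this using 2
      push_cast
      ring)
    rw [d3, hF, e0, e2, show 3 * b + 3 + 3 = 2 + 1 + 3 * (b + 1) by ring, hb] at h'
    have h'' := (mul_eq_zero.1 (by linarith : ((3 * b + 3 : ℕ) + 3 : ℝ) * ((3 * b + 3 : ℕ) + 2) *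
      ((3 * b + 3 : ℕ) + 1) * (J ω g (3 * b + 3)).im = 0)).resolve_left (hcoef _)
    rw [show 2 + 1 + 3 * b = 3 * b + 3 by ring]
    exact h''

/-- `j` orthogonality relations give `j` sign changes, `N = 3` -/
theorem alt3 (h : ω ^ 2 + ω + 1 = 0) (him : ω.im ≠ 0) (k : ℕ) (hk : k < 3) (j : ℕ) :
    ∀ f : ℝ[X], f ≠ 0 →
    (∀ b < j, (J ω f (k + 1 + 3 * b)).im = 0) → Alt (fun x => f.eval x) j := by
  induction j with
  | zero => exact fun f hf _ => alt_zero hf
  | succ j ih =>
    intro f hf hJ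
    obtain ⟨g, hg, e0, e1, z0, z1, z2, hb⟩ := step3 h him k hk f (hJ 0 (by omega))
    have hg0 : g ≠ 0 := by
      rintro rfl
      apply hf
      rw [← hg]
      simp
    have a0 := ih g hg0 (fun b hb' => hb b (hJ (b + 1) (by omega)))
    rw [← hg]
    interval_cases k
    · exact (((a0.osc_right e0).alt.osc_both (z1 (by omega)) e1).alt.osc_left (z2 (by omega))).alt
    · exact (((a0.osc_both (z0 (by omega)) e0).alt.osc_right e1).alt.osc_left (z2 (by omega))).alt
    · exact (((a0.osc_both (z0 (by omega)) e0).alt.osc_both (z1 (by omega)) e1).alt.osc).alt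

end Three

end Pool.Agent.K3h94.Berg
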